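import Mathlib

set_option autoImplicit false

namespace Pool.Agent.H79.CU

open Module

section Density

variable {B : Type*} [Ring B] {V : Type*} [AddCommGroup V] [Module B V]

open Classical in
/-- density theorem in the form needed here -/
theorem density [IsSimpleModule B V] {ι : Type*} [Fintype ι] (z : ι → V)
    (hz : LinearIndependent (Module.End B V) z) (s : ι → V) :
    ∃ t : B, ∀ i, t • z i = s i := by
  let g : Submodule.span (Module.End B V) (Set.range z) →ₗ[Module.End B V] V :=
    (Finsupp.linearCombination _ s).comp hz.repr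
  obtain ⟨f, hf⟩ := LinearMap.exists_extend g
  have hfz : ∀ i, f (z i) = s i := by
    intro i
    have h1 : f (z i) = g ⟨z i, Submodule.subset_span ⟨i, rfl⟩⟩ := by
      rw [← hf]; rfl
    rw [h1]
    show (Finsupp.linearCombination _ s) (hz.repr ⟨z i, _⟩) = s i
    rw [hz.repr_eq_single i _ rfl]
    simp
  obtain ⟨t, ht⟩ := jacobson_density (R := B) (M := V) f (Finset.univ.image z)
  exact ⟨t, fun i => by rw [← ht (z i) (by simp), hfz]⟩

/-- two cyclic submodules of `V ^ b` of large length meet -/
theorem inter [IsSimpleModule B V] {b q q' : ℕ} (z z' : Fin b → V) (J : Fin q → Fin b)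
    (J' : Fin q' → Fin b) (hz : ∀ s : Fin q → V, ∃ t : B, ∀ l, t • z (J l) = s l)
    (hz' : ∀ s : Fin q' → V, ∃ t : B, ∀ l, t • z' (J' l) = s l) (h : b < q + q') :
    ∃ c c' : B, c • z = c' • z' ∧ c • z ≠ 0 := by
  by_contra hcon
  push Not at hcon
  let N := Submodule.span B {z}
  let N' := Submodule.span B {z'}
  have hinj : Function.Injective (N.subtype.coprod N'.subtype) := by
    rw [← LinearMap.ker_eq_bot, LinearMap.ker_eq_bot']
    rintro ⟨⟨x, hx⟩, ⟨y, hy⟩⟩ hxy
    obtain ⟨c, rfl⟩ := Submodule.mem_span_singleton.1 hx
    obtain ⟨c', rfl⟩ := Submodule.mem_span_singleton.1 hy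
    have h1 : c • z + c' • z' = 0 := hxy
    have h2 : c • z = (-c') • z' := by rw [neg_smul]; exact eq_neg_of_add_eq_zero_left h1
    have h3 := hcon c (-c') h2
    have h4 : c' • z' = 0 := by rwa [h3, zero_add] at h1
    ext1 <;> simpa
  have hl := Module.length_le_of_injective (N.subtype.coprod N'.subtype) hinj
  have e1 : Module.length B V = 1 := Module.length_eq_one ..
  rw [Module.length_prod, Module.length_pi, e1, mul_one] at hl
  have key : ∀ {q : ℕ} (z : Fin b → V) (J : Fin q → Fin b)
      (_ : ∀ s : Fin q → V, ∃ t : B, ∀ l, t • z (J l) = s l),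
      (q : ℕ∞) ≤ Module.length B (Submodule.span B {z}) := by
    intro q z J hz
    let f : Submodule.span B {z} →ₗ[B] (Fin q → V) :=
      (LinearMap.funLeft B V J).comp (Submodule.span B {z}).subtype
    have hf : Function.Surjective f := by
      intro s
      obtain ⟨t, ht⟩ := hz s
      exact ⟨⟨t • z, Submodule.smul_mem _ _ (Submodule.mem_span_singleton_self z)⟩,
        funext fun l => ht l⟩
    have := Module.length_le_of_surjective f hf
    rwa [Module.length_pi, e1, mul_one, ENat.card_eq_coe_fintype_card,
      Fintype.card_fin] at this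
  have h1 := key z J hz
  have h2 := key z' J' hz'
  have h3 : ((q + q' : ℕ) : ℕ∞) ≤ (b : ℕ∞) := by
    push_cast
    refine (add_le_add h1 h2).trans (hl.trans ?_)
    rw [ENat.card_eq_coe_fintype_card, Fintype.card_fin]
  have := ENat.natCast_le_natCast.1 h3
  omega

end Density

section Rank

/-- perturbing `b` independent vectors by vectors of a space of dimension at most `r` leaves at
least `b - r` independent vectors -/
theorem rank_perturb {F : Type*} [DivisionRing F] {V : Type*} [AddCommGroup V] [Module F V]
    {b r : ℕ} (w u : Fin b → V) (hw : LinearIndependent F w) (y : Fin r → V)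
    (hu : ∀ j, u j ∈ Submodule.span F (Set.range y)) :
    ∃ q : ℕ, b ≤ q + r ∧ ∃ J : Fin q → Fin b, LinearIndependent F (fun l => w (J l) + u (J l)) := by
  classical
  let Φ := Submodule.span F (Set.range (fun j => w j + u j))
  let L := Submodule.span F (Set.range y)
  have : FiniteDimensional F Φ := FiniteDimensional.span_of_finite F (Set.finite_range _)
  have : FiniteDimensional F L := FiniteDimensional.span_of_finite F (Set.finite_range _)
  have h1 : Submodule.span F (Set.range w) ≤ Φ ⊔ L := by
    rw [Submodule.span_le]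
    rintro _ ⟨j, rfl⟩
    have : w j = (w j + u j) + (-(u j)) := by abel
    rw [SetLike.mem_coe, this]
    exact Submodule.add_mem_sup (Submodule.subset_span ⟨j, rfl⟩) (L.neg_mem (hu j))
  have h2 : finrank F (Submodule.span F (Set.range w)) = b := by
    rw [finrank_span_eq_card hw, Fintype.card_fin]
  have h3 : finrank F (Submodule.span F (Set.range w)) ≤ finrank F (Φ ⊔ L : Submodule F V) :=
    Submodule.finrank_mono h1
  have h4 := Submodule.finrank_add_le_finrank_add_finrank Φ L
  have h5 : finrank F L ≤ r := by
    have := finrank_range_le_card (R := F) y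
    rwa [Fintype.card_fin] at this
  obtain ⟨f, hf1, -, hf3⟩ := Submodule.exists_fun_fin_finrank_span_eq F (Set.range (fun j => w j + u j))
  choose J hJ using hf1
  refine ⟨finrank F Φ, by omega, J, ?_⟩
  have : (fun l => w (J l) + u (J l)) = f := funext hJ
  rw [this]
  exact hf3

end Rank

end Pool.Agent.H79.CU
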