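import Mathlib
import Pool.Agent.H79.CU.Density

set_option autoImplicit false

universe u v

namespace Pool.Agent.H79.CU

open Module

/-- `e` is a primitive idempotent of the subring `B` -/
structure Prim {S : Type u} [Ring S] (B : Subring S) (e : S) : Prop where
  mem : e ∈ B
  idem : e * e = e
  ne : e ≠ 0
  div : ∀ x ∈ B, e * x * e ≠ 0 → ∃ y ∈ B, e * y * e * (e * x * e) = e

theorem Prim.eq_of_idem {S : Type u} [Ring S] {B : Subring S} {e : S} (h : Prim B e) {g : S}
    (hg : g ∈ B) (hgg : g * g = g) (hg0 : g ≠ 0) (h1 : e * g = g) (h2 : g * e = g) : g = e := by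
  obtain ⟨y, -, hy⟩ := h.div g hg (by rw [h1, h2]; exact hg0)
  rw [h1, h2] at hy
  calc g = e * g := h1.symm
    _ = e * y * e * g * g := by rw [hy]
    _ = e * y * e * g := by rw [mul_assoc, hgg]
    _ = e := hy

/-- a primitive idempotent of a regular subring generates a minimal left ideal -/
theorem Prim.left {S : Type u} [Ring S] {B : Subring S} (hreg : ∀ a ∈ B, ∃ x ∈ B, a * x * a = a)
    {e : S} (h : Prim B e) {t : S} (ht : t ∈ B) (hte : t * e ≠ 0) : ∃ s ∈ B, s * t * e = e := by
  obtain ⟨x, hx, hxa⟩ := hreg (t * e) (B.mul_mem ht h.mem)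
  have h1 : e * (x * t) * e ≠ 0 := by
    intro h0
    apply hte
    calc t * e = t * e * x * (t * e) := hxa.symm
      _ = t * (e * (x * t) * e) := by simp only [mul_assoc]
      _ = 0 := by rw [h0, mul_zero]
  obtain ⟨y, hy, hyx⟩ := h.div (x * t) (B.mul_mem hx ht) h1
  refine ⟨e * y * e * x, B.mul_mem (B.mul_mem (B.mul_mem h.mem hy) h.mem) hx, ?_⟩
  calc e * y * e * x * t * e = e * y * e * (x * t * e) := by simp only [mul_assoc]
    _ = e * y * (e * e) * (x * t * e) := by rw [h.idem]
    _ = e * y * e * (e * (x * t) * e) := by simp only [mul_assoc]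
    _ = e := hyx

section Stage

variable {S : Type u} [Ring S] {V : Type v} [AddCommGroup V] [Module S V]

/-- restriction of endomorphisms to a smaller subring -/
def res {B B' : Subring S} (h : B ≤ B') (f : Module.End B' V) : Module.End B V where
  toFun := f
  map_add' := map_add f
  map_smul' t x := map_smul f (⟨t.1, h t.2⟩ : B') x

@[simp] theorem res_apply {B B' : Subring S} (h : B ≤ B') (f : Module.End B' V) (x : V) :
    res h f x = f x := rfl

theorem schur {R : Type*} [Ring R] {M : Type*} [AddCommGroup M] [Module R M] [IsSimpleModule R M]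
    (d : Module.End R M) {x : M} (hx : x ≠ 0) (hd : d x = 0) : d = 0 := by
  rcases LinearMap.injective_or_eq_zero d with h | h
  · exact absurd (h (hd.trans (map_zero d).symm)) hx
  · exact h

/-- a primitive idempotent `p` of `B` cuts out a one-dimensional space -/
theorem exists_end (B : Subring S) [IsSimpleModule B V]
    (hreg : ∀ a ∈ B, ∃ x ∈ B, a * x * a = a) {p : S} (hp : Prim B p) {x₀ u : V}
    (hx₀ : x₀ ≠ 0) (hpx : p • x₀ = x₀) (hpu : p • u = u) : ∃ d : Module.End B V, d x₀ = u := by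
  have hsurj : Function.Surjective (LinearMap.toSpanSingleton B V x₀) :=
    IsSimpleModule.toSpanSingleton_surjective B hx₀
  have hker : LinearMap.ker (LinearMap.toSpanSingleton B V x₀) ≤
      LinearMap.ker (LinearMap.toSpanSingleton B V u) := by
    intro t ht
    have ht' : (t : S) • x₀ = 0 := ht
    have h1 : (t : S) * p = 0 := by
      by_contra h0
      obtain ⟨s, hs, hst⟩ := hp.left hreg t.2 h0
      apply hx₀
      rw [← hpx, ← hst, mul_assoc, mul_smul, mul_smul, hpx, ht', smul_zero]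
    show (t : S) • u = 0
    rw [← hpu, ← mul_smul, h1, zero_smul]
  refine ⟨((LinearMap.ker (LinearMap.toSpanSingleton B V x₀)).liftQ
    (LinearMap.toSpanSingleton B V u) hker).comp
    ((LinearMap.toSpanSingleton B V x₀).quotKerEquivOfSurjective hsurj).symm.toLinearMap, ?_⟩
  have h2 : ((LinearMap.toSpanSingleton B V x₀).quotKerEquivOfSurjective hsurj).symm x₀ =
      Submodule.Quotient.mk 1 := by
    rw [LinearEquiv.symm_apply_eq]
    show x₀ = (LinearMap.toSpanSingleton B V x₀) 1
    simp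
  show (Submodule.liftQ _ _ hker)
    (((LinearMap.toSpanSingleton B V x₀).quotKerEquivOfSurjective hsurj).symm x₀) = u
  rw [h2]
  show (LinearMap.toSpanSingleton B V u) 1 = u
  simp

/-- orthogonal idempotents below a given one -/
theorem exists_orth (hsplit : ∀ f : S, f * f = f → f ≠ 0 → ∃ g : S, g * g = g ∧ g ≠ 0 ∧ g ≠ f ∧
    f * g = g ∧ g * f = g) : ∀ (b : ℕ) (p : S), p * p = p → p ≠ 0 → ∃ g : Fin b → S,
    (∀ i, g i * g i = g i ∧ g i ≠ 0 ∧ p * g i = g i ∧ g i * p = g i) ∧
      ∀ i j, i ≠ j → g i * g j = 0 := by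
  intro b
  induction b with
  | zero => exact fun p _ _ => ⟨Fin.elim0, fun i => i.elim0, fun i => i.elim0⟩
  | succ b ih =>
    intro p hp hp0
    obtain ⟨g₀, h1, h2, h3, h4, h5⟩ := hsplit p hp hp0
    have e1 : (p - g₀) * (p - g₀) = p - g₀ := by
      rw [sub_mul, mul_sub, mul_sub, hp, h4, h5, h1, sub_self, sub_zero]
    obtain ⟨g, hg1, hg2⟩ := ih (p - g₀) e1 (sub_ne_zero.2 (Ne.symm h3))
    have e2 : p * (p - g₀) = p - g₀ := by rw [mul_sub, hp, h4]
    have e3 : (p - g₀) * p = p - g₀ := by rw [sub_mul, hp, h5]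
    have e4 : g₀ * (p - g₀) = 0 := by rw [mul_sub, h5, h1, sub_self]
    have e5 : (p - g₀) * g₀ = 0 := by rw [sub_mul, h4, h1, sub_self]
    refine ⟨Fin.cons g₀ g, ?_, ?_⟩
    · intro i
      refine Fin.cases ?_ (fun i => ?_) i
      · simp only [Fin.cons_zero]
        exact ⟨h1, h2, h4, h5⟩
      · simp only [Fin.cons_succ]
        obtain ⟨a1, a2, a3, a4⟩ := hg1 i
        refine ⟨a1, a2, ?_, ?_⟩
        · rw [← a3, ← mul_assoc, e2]
        · rw [← a4, mul_assoc, e3]
    · intro i j
      refine Fin.cases ?_ (fun i => ?_) i <;> refine Fin.cases ?_ (fun j => ?_) j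
      · intro h; exact absurd rfl h
      · intro _
        simp only [Fin.cons_zero, Fin.cons_succ]
        rw [← (hg1 j).2.2.1, ← mul_assoc, e4, zero_mul]
      · intro _
        simp only [Fin.cons_zero, Fin.cons_succ]
        rw [← (hg1 i).2.2.2, mul_assoc, e5, mul_zero]
      · intro h
        simp only [Fin.cons_succ]
        exact hg2 i j (fun h' => h (by rw [h']))

variable (B : ℕ → Subring S)

/-- large families of endomorphisms of level `m`, independent over level `m'` -/
theorem exists_family (hmono : Monotone B) (hcov : ∀ s : S, ∃ n, s ∈ B n)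
    (hreg : ∀ n, ∀ a ∈ B n, ∃ x ∈ B n, a * x * a = a)
    (hprim : ∀ n, ∃ p, Prim (B n) p)
    (hsplit : ∀ f : S, f * f = f → f ≠ 0 → ∃ g : S, g * g = g ∧ g ≠ 0 ∧ g ≠ f ∧
      f * g = g ∧ g * f = g)
    (hfaith : ∀ s : S, s ≠ 0 → ∃ x : V, s • x ≠ 0) (hirr : ∀ n, IsSimpleModule (B n) V)
    (m b : ℕ) : ∃ m', m ≤ m' ∧ ∃ y : Fin b → Module.End (B m) V, ∀ n, m' ≤ n → ∀ x : V, x ≠ 0 →
      LinearIndependent (Module.End (B n) V) (fun j => y j x) := by
  classical
  obtain ⟨p, hp⟩ := hprim m
  obtain ⟨g, hg, hgo⟩ := exists_orth hsplit b p hp.idem hp.ne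
  choose N hN using fun i => hcov (g i)
  have hm : ∃ m', m ≤ m' ∧ ∀ i, g i ∈ B m' := by
    refine ⟨m + ∑ i, N i, Nat.le_add_right _ _, fun i => hmono ?_ (hN i)⟩
    exact (Finset.single_le_sum (fun i _ => Nat.zero_le (N i)) (Finset.mem_univ i)).trans
      (Nat.le_add_left _ _)
  obtain ⟨m', hmm', hgm'⟩ := hm
  obtain ⟨x₁, hx₁⟩ := hfaith p hp.ne
  choose z hz using fun i => hfaith (g i) (hg i).2.1
  have hirrm := hirr m
  have hy : ∀ i, ∃ d : Module.End (B m) V, d (p • x₁) = g i • z i := by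
    intro i
    apply exists_end (B m) (hreg m) hp hx₁
    · rw [← mul_smul, hp.idem]
    · rw [← mul_smul, (hg i).2.2.1]
  choose y hy using hy
  refine ⟨m', hmm', y, fun n hn x hx => ?_⟩
  have hirrn := hirr n
  rw [Fintype.linearIndependent_iff]
  intro e he i
  have hle : B m ≤ B n := hmono (hmm'.trans hn)
  let D : Module.End (B m) V := ∑ j, (res hle (e j)) * y j
  have hD : D x = 0 := by
    simp only [D, LinearMap.sum_apply, Module.End.mul_apply, res_apply]
    exact he
  have hD0 : D = 0 := schur D hx hD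
  have h1 : D (p • x₁) = 0 := by rw [hD0]; rfl
  simp only [D, LinearMap.sum_apply, Module.End.mul_apply, res_apply, hy] at h1
  have hgn : g i ∈ B n := hmono hn (hgm' i)
  have h2 : ∀ j, g i • (e j) (g j • z j) = if j = i then (e i) (g i • z i) else 0 := by
    intro j
    have h3 : g i • (e j) (g j • z j) = (e j) (g i • g j • z j) :=
      (map_smul (e j) (⟨g i, hgn⟩ : B n) _).symm
    rw [h3, ← mul_smul]
    split_ifs with h
    · rw [h, (hg i).1]
    · rw [hgo i j (Ne.symm h), zero_smul, map_zero]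
  have h4 : g i • ∑ j, (e j) (g j • z j) = 0 := by rw [h1, smul_zero]
  rw [Finset.smul_sum, Finset.sum_congr rfl (fun j _ => h2 j)] at h4
  simp only [Finset.sum_ite_eq', Finset.mem_univ, if_true] at h4
  exact schur (e i) (hz i) h4

/-- the stage matrices -/
theorem exists_stage (hmono : Monotone B) (hirr : ∀ n, IsSimpleModule (B n) V) (b : ℕ)
    (hfam : ∀ m : ℕ, ∃ m', m ≤ m' ∧ ∃ y : Fin b → Module.End (B m) V, ∀ n, m' ≤ n → ∀ x : V,
      x ≠ 0 → LinearIndependent (Module.End (B n) V) (fun j => y j x)) :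
    ∀ r m : ℕ, ∃ m', m ≤ m' ∧ ∃ c : Fin r → Fin b → Module.End (B m) V, ∀ x : Fin r → V, x ≠ 0 →
      ∃ n, n ≤ m' ∧ ∃ q : ℕ, b + 1 ≤ q + r ∧ ∃ J : Fin q → Fin b,
        LinearIndependent (Module.End (B n) V) (fun l => ∑ i, c i (J l) (x i)) := by
  classical
  intro r
  induction r with
  | zero => exact fun m => ⟨m, le_rfl, fun i => i.elim0, fun x hx => absurd (Subsingleton.elim x 0) hx⟩
  | succ r ih =>
    intro m
    obtain ⟨m₁, hm₁, y, hy⟩ := hfam m
    obtain ⟨m', hm', c, hc⟩ := ih m₁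
    have hle : B m ≤ B m₁ := hmono hm₁
    refine ⟨m', hm₁.trans hm', Fin.cons y (fun i j => res hle (c i j)), fun x hx => ?_⟩
    have hsum : ∀ j : Fin b, ∑ i, (Fin.cons y (fun i j => res hle (c i j)) :
        Fin (r + 1) → Fin b → Module.End (B m) V) i j (x i) =
        y j (x 0) + ∑ i, c i j (Fin.tail x i) := by
      intro j
      rw [Fin.sum_univ_succ]
      rfl
    simp only [hsum]
    by_cases h0 : x 0 = 0
    · have ht : Fin.tail x ≠ 0 := by
        intro ht
        apply hx
        funext i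
        refine Fin.cases h0 (fun i => ?_) i
        exact congrFun ht i
      obtain ⟨n, hn, q, hq, J, hJ⟩ := hc (Fin.tail x) ht
      refine ⟨n, hn, q, by omega, J, ?_⟩
      simp only [h0, map_zero, zero_add]
      exact hJ
    · have hirr1 := hirr m₁
      obtain ⟨q, hq, J, hJ⟩ := rank_perturb (F := Module.End (B m₁) V) (fun j => y j (x 0))
        (fun j => ∑ i, c i j (Fin.tail x i)) (hy m₁ le_rfl (x 0) h0) (Fin.tail x) (by
          intro j
          refine Submodule.sum_mem _ fun i _ => ?_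
          exact Submodule.smul_mem _ (c i j) (Submodule.subset_span ⟨i, rfl⟩))
      exact ⟨m₁, hm', q, by omega, J, hJ⟩

end Stage

end Pool.Agent.H79.CU
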