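import Mathlib
import Pool.Agent.H79.CU.Stage

set_option autoImplicit false

universe u v

namespace Pool.Agent.H79.CU

open Module

section Uniform

variable {S : Type u} [Ring S] {V : Type v} [AddCommGroup V] [Module S V] (B : ℕ → Subring S)

/-- the sequence of vectors `x k ∈ V ^ (2 ^ k)` -/
theorem exists_sequence (hmono : Monotone B) (hirr : ∀ n, IsSimpleModule (B n) V)
    (hst : ∀ b r m : ℕ, ∃ m', m ≤ m' ∧ ∃ c : Fin r → Fin b → Module.End (B m) V,
      ∀ x : Fin r → V, x ≠ 0 → ∃ n, n ≤ m' ∧ ∃ q : ℕ, b + 1 ≤ q + r ∧ ∃ J : Fin q → Fin b,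
        LinearIndependent (Module.End (B n) V) (fun l => ∑ i, c i (J l) (x i))) :
    ∃ (m : ℕ → ℕ) (x : ∀ k, Fin (2 ^ k) → V)
      (φ : ∀ k, (Fin (2 ^ k) → V) → (Fin (2 ^ (k + 1)) → V)),
      Monotone m ∧ (∀ k, k ≤ m k) ∧ x 0 ≠ 0 ∧ (∀ k, x (k + 1) = φ k (x k)) ∧
      (∀ k, φ k 0 = 0) ∧ (∀ k, ∀ t ∈ B (m k), ∀ x, φ k (t • x) = t • φ k x) ∧
      (∀ k, ∀ x, x ≠ 0 → ∃ q : ℕ, 2 ^ (k + 1) + 1 ≤ q + 2 ^ k ∧ ∃ J : Fin q → Fin (2 ^ (k + 1)),
        (∀ l, φ k x (J l) ≠ 0) ∧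
        ∀ s : Fin q → V, ∃ t ∈ B (m (k + 1)), ∀ l, t • φ k x (J l) = s l) := by
  classical
  have hV : Nontrivial V := IsSimpleModule.nontrivial (B 0) V
  obtain ⟨v, hv⟩ := exists_ne (0 : V)
  choose M hM c hc using hst
  let φ' : ∀ (k m : ℕ), (Fin (2 ^ k) → V) → (Fin (2 ^ (k + 1)) → V) :=
    fun k m x j => ∑ i, c (2 ^ (k + 1)) (2 ^ k) m i j (x i)
  let st : ∀ k : ℕ, ℕ × (Fin (2 ^ k) → V) := fun k =>
    Nat.rec (motive := fun k => ℕ × (Fin (2 ^ k) → V)) (0, fun _ => v)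
      (fun k p => (max (M (2 ^ (k + 1)) (2 ^ k) p.1) (k + 1), φ' k p.1 p.2)) k
  have hst1 : ∀ k, (st (k + 1)).1 = max (M (2 ^ (k + 1)) (2 ^ k) (st k).1) (k + 1) := fun k => rfl
  have hst2 : ∀ k, (st (k + 1)).2 = φ' k (st k).1 (st k).2 := fun k => rfl
  refine ⟨fun k => (st k).1, fun k => (st k).2, fun k => φ' k (st k).1, ?_, ?_, ?_, hst2, ?_, ?_, ?_⟩
  · refine monotone_nat_of_le_succ fun k => ?_
    show (st k).1 ≤ (st (k + 1)).1
    rw [hst1]
    exact (hM _ _ _).trans (le_max_left _ _)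
  · intro k
    cases k with
    | zero => exact Nat.zero_le _
    | succ k =>
      show k + 1 ≤ (st (k + 1)).1
      rw [hst1]
      exact le_max_right _ _
  · intro h
    exact hv (congrFun h ⟨0, by norm_num⟩)
  · intro k
    funext j
    simp [φ']
  · intro k t ht x
    funext j
    show ∑ i, c (2 ^ (k + 1)) (2 ^ k) (st k).1 i j (t • x i) =
      t • ∑ i, c (2 ^ (k + 1)) (2 ^ k) (st k).1 i j (x i)
    rw [Finset.smul_sum]
    refine Finset.sum_congr rfl fun i _ => ?_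
    exact map_smul (c (2 ^ (k + 1)) (2 ^ k) (st k).1 i j) (⟨t, ht⟩ : B (st k).1) (x i)
  · intro k x hx
    obtain ⟨n, hn, q, hq, J, hJ⟩ := hc (2 ^ (k + 1)) (2 ^ k) (st k).1 x hx
    have hirrn := hirr n
    refine ⟨q, hq, J, ?_, fun s => ?_⟩
    · intro l
      exact hJ.ne_zero l
    · obtain ⟨t, ht⟩ := density _ hJ s
      refine ⟨t, ?_, ht⟩
      have : n ≤ (st (k + 1)).1 := by
        rw [hst1]
        exact hn.trans (le_max_left _ _)
      exact hmono this t.2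

/-- **the uniform module**: a left ideal `J` such that `S ⧸ J` is uniform and has no submodule
isomorphic to `V` -/
theorem exists_uniform_ideal (hmono : Monotone B) (hcov : ∀ s : S, ∃ n, s ∈ B n)
    (hirr : ∀ n, IsSimpleModule (B n) V)
    (hst : ∀ b r m : ℕ, ∃ m', m ≤ m' ∧ ∃ c : Fin r → Fin b → Module.End (B m) V,
      ∀ x : Fin r → V, x ≠ 0 → ∃ n, n ≤ m' ∧ ∃ q : ℕ, b + 1 ≤ q + r ∧ ∃ J : Fin q → Fin b,
        LinearIndependent (Module.End (B n) V) (fun l => ∑ i, c i (J l) (x i))) :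
    ∃ J : Ideal S, (1 : S) ∉ J ∧
      (∀ a b : S, a ∉ J → b ∉ J → ∃ c c' : S, c * a - c' * b ∈ J ∧ c * a ∉ J) ∧
      (∀ a : S, a ∉ J → ∀ κ : V, κ ≠ 0 → ¬ ∀ t : S, t * a ∈ J ↔ t • κ = 0) := by
  obtain ⟨m, x, φ, hm, hkm, hx0, hx, hφ0, hφ, hφs⟩ := exists_sequence B hmono hirr hst
  have hV : Nontrivial V := IsSimpleModule.nontrivial (B 0) V
  -- basic propagation facts
  have hq0 : ∀ k, ∀ y : Fin (2 ^ k) → V, y ≠ 0 → φ k y ≠ 0 := by
    intro k y hy
    obtain ⟨q, hq, J, hJ, -⟩ := hφs k y hy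
    have : 0 < q := by
      have : 2 ^ (k + 1) = 2 * 2 ^ k := pow_succ' 2 k
      omega
    intro h0
    exact hJ ⟨0, this⟩ (by rw [h0]; rfl)
  have hstep : ∀ k, ∀ t ∈ B (m k), t • x (k + 1) = φ k (t • x k) := by
    intro k t ht
    rw [hx, hφ k t ht]
  have hzero : ∀ k, ∀ t ∈ B (m k), t • x k = 0 → ∀ j, k ≤ j → t • x j = 0 := by
    intro k t ht h0 j hj
    induction j, hj using Nat.le_induction with
    | base => exact h0
    | succ j hj ih =>
      rw [hstep j t (hmono (hm hj) ht), ih, hφ0]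
  have hnz : ∀ k, ∀ t ∈ B (m k), t • x k ≠ 0 → ∀ j, k ≤ j → t • x j ≠ 0 := by
    intro k t ht h0 j hj
    induction j, hj using Nat.le_induction with
    | base => exact h0
    | succ j hj ih =>
      rw [hstep j t (hmono (hm hj) ht)]
      exact hq0 j _ ih
  let J : Ideal S :=
    { carrier := {t | ∃ k₀, ∀ k, k₀ ≤ k → t • x k = 0}
      add_mem' := by
        rintro a b ⟨k, hk⟩ ⟨l, hl⟩
        exact ⟨max k l, fun j hj => by
          rw [add_smul, hk j ((le_max_left _ _).trans hj), hl j ((le_max_right _ _).trans hj),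
            add_zero]⟩
      zero_mem' := ⟨0, fun k _ => zero_smul _ _⟩
      smul_mem' := by
        rintro c a ⟨k, hk⟩
        exact ⟨k, fun j hj => by rw [smul_eq_mul, mul_smul, hk j hj, smul_zero]⟩ }
  have hJmem : ∀ k, ∀ t ∈ B (m k), (t ∈ J ↔ t • x k = 0) := by
    intro k t ht
    constructor
    · rintro ⟨k₀, hk₀⟩
      by_contra h0
      exact hnz k t ht h0 (max k k₀) (le_max_left _ _) (hk₀ _ (le_max_right _ _))
    · intro h0
      exact ⟨k, hzero k t ht h0⟩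
  refine ⟨J, ?_, ?_, ?_⟩
  · intro h1
    have := (hJmem 0 1 (B _).one_mem).1 h1
    rw [one_smul] at this
    exact hx0 this
  · intro a b ha hb
    obtain ⟨na, hna⟩ := hcov a
    obtain ⟨nb, hnb⟩ := hcov b
    set k := max na nb with hk
    have hak : a ∈ B (m k) := hmono ((le_max_left na nb).trans (hkm k)) hna
    have hbk : b ∈ B (m k) := hmono ((le_max_right na nb).trans (hkm k)) hnb
    have ha0 : a • x k ≠ 0 := fun h => ha ((hJmem k a hak).2 h)
    have hb0 : b • x k ≠ 0 := fun h => hb ((hJmem k b hbk).2 h)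
    obtain ⟨q, hq, Ja, -, hJa⟩ := hφs k _ ha0
    obtain ⟨q', hq', Jb, -, hJb⟩ := hφs k _ hb0
    have hirrn := hirr (m (k + 1))
    have hlt : 2 ^ (k + 1) < q + q' := by
      have : 2 ^ (k + 1) = 2 * 2 ^ k := pow_succ' 2 k
      omega
    obtain ⟨c, c', h1, h2⟩ := inter (B := B (m (k + 1))) (V := V) (φ k (a • x k)) (φ k (b • x k))
      Ja Jb (fun s => by
        obtain ⟨t, ht, hts⟩ := hJa s
        exact ⟨⟨t, ht⟩, hts⟩) (fun s => by
        obtain ⟨t, ht, hts⟩ := hJb s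
        exact ⟨⟨t, ht⟩, hts⟩) hlt
    rw [← hstep k a hak, ← hstep k b hbk] at h1
    rw [← hstep k a hak] at h2
    have hak' : a ∈ B (m (k + 1)) := hmono (hm (Nat.le_succ k)) hak
    have hbk' : b ∈ B (m (k + 1)) := hmono (hm (Nat.le_succ k)) hbk
    have h1' : (c : S) • a • x (k + 1) = (c' : S) • b • x (k + 1) := h1
    have h2' : (c : S) • a • x (k + 1) ≠ 0 := h2
    refine ⟨c, c', ?_, ?_⟩
    · rw [hJmem (k + 1) _ ((B _).sub_mem ((B _).mul_mem c.2 hak') ((B _).mul_mem c'.2 hbk')),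
        sub_smul, mul_smul, mul_smul, h1', sub_self]
    · rw [hJmem (k + 1) _ ((B _).mul_mem c.2 hak'), mul_smul]
      exact h2'
  · intro a ha κ hκ hall
    obtain ⟨k, hak₀⟩ := hcov a
    have hak : a ∈ B (m k) := hmono (hkm k) hak₀
    have ha0 : a • x k ≠ 0 := fun h => ha ((hJmem k a hak).2 h)
    obtain ⟨q, hq, Ja, hJ0, hJa⟩ := hφs k _ ha0
    have hq2 : 1 < q := by
      have h1 : 2 ^ (k + 1) = 2 * 2 ^ k := pow_succ' 2 k
      have h2 : 0 < 2 ^ k := by positivity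
      omega
    have hirrn := hirr (m (k + 1))
    have hak' : a ∈ B (m (k + 1)) := hmono (hm (Nat.le_succ k)) hak
    have key : ∀ t ∈ B (m (k + 1)), (t • φ k (a • x k) = 0 ↔ t • κ = 0) := by
      intro t ht
      rw [← hall t, hJmem (k + 1) _ ((B _).mul_mem ht hak'), mul_smul, hstep k a hak]
    obtain ⟨v, hv⟩ := exists_ne (0 : V)
    obtain ⟨t, ht, hts⟩ := hJa (fun l => if l = ⟨0, by omega⟩ then v else 0)
    have ht0 : t • κ ≠ 0 := by
      intro h0
      rw [← key t ht] at h0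
      have h1 := hts ⟨0, by omega⟩
      rw [if_pos rfl] at h1
      apply hv
      rw [← h1]
      exact congrFun h0 _
    -- `κ` is a multiple of `t • κ`
    have hsurj := IsSimpleModule.toSpanSingleton_surjective (B (m (k + 1))) ht0
    obtain ⟨s, hs⟩ := hsurj κ
    have hs' : (s : S) • t • κ = κ := hs
    have h3 : ((s : S) * t - 1) • κ = 0 := by rw [sub_smul, mul_smul, hs', one_smul, sub_self]
    rw [← key _ ((B _).sub_mem ((B _).mul_mem s.2 ht) (B _).one_mem)] at h3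
    have h4 := congrFun h3 (Ja ⟨1, hq2⟩)
    have h5 := hts ⟨1, hq2⟩
    rw [if_neg (by simp)] at h5
    have h6 : ((s : S) * t - 1) • φ k (a • x k) (Ja ⟨1, hq2⟩) = 0 := h4
    rw [sub_smul, mul_smul, h5, smul_zero, one_smul, zero_sub, neg_eq_zero] at h6
    exact hJ0 _ h6

end Uniform

end Pool.Agent.H79.CU
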