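import Mathlib
import Pool.Agent.H79.CU.Uniform

set_option autoImplicit false

universe u v

namespace Pool.Agent.H79.CU

open Module

section SimpleRing

/-- an element of a two-sided ideal containing a nonzero element of a simple ring -/
theorem mem_of_ideal {S : Type u} [Ring S] [IsSimpleRing S] (P : S → Prop) (h0 : P 0)
    (hadd : ∀ x y, P x → P y → P (x + y)) (hneg : ∀ x, P x → P (-x))
    (hl : ∀ x y, P y → P (x * y)) (hr : ∀ x y, P x → P (x * y)) {e : S} (he : e ≠ 0) (hPe : P e) :
    ∀ x, P x := by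
  let I : TwoSidedIdeal S := TwoSidedIdeal.mk' {x | P x} h0 (fun {x y} hx hy => hadd x y hx hy)
    (fun {x} hx => hneg x hx) (fun {x y} hy => hl x y hy) (fun {x y} hx => hr x y hx)
  have hI : ∀ x, x ∈ I ↔ P x := fun x => TwoSidedIdeal.mem_mk' ..
  rcases eq_bot_or_eq_top I with h | h
  · exfalso
    have : e ∈ I := (hI e).2 hPe
    rw [h] at this
    exact he ((TwoSidedIdeal.mem_bot S).1 this)
  · intro x
    rw [← hI x, h]
    trivial

theorem faithful {S : Type u} [Ring S] [IsSimpleRing S] {V : Type v} [AddCommGroup V] [Module S V]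
    [Nontrivial V] (s : S) (hs : s ≠ 0) : ∃ x : V, s • x ≠ 0 := by
  by_contra hcon
  push Not at hcon
  have := mem_of_ideal (S := S) (fun s => ∀ x : V, s • x = 0) (fun x => zero_smul _ _)
    (fun a b ha hb x => by rw [add_smul, ha, hb, add_zero])
    (fun a ha x => by rw [neg_smul, ha, neg_zero])
    (fun a b hb x => by rw [mul_smul, hb, smul_zero])
    (fun a b ha x => by rw [mul_smul, ha]) hs hcon 1
  obtain ⟨v, hv⟩ := exists_ne (0 : V)
  exact hv (by rw [← one_smul S v, this])

end SimpleRing

section Prim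

variable {S : Type u} [Ring S]

theorem Prim.fix {B : Subring S} (hreg : ∀ a ∈ B, ∃ x ∈ B, a * x * a = a) {p : S}
    (hp : Prim B p) {V : Type v} [AddCommGroup V] [Module S V] {x : V} (hx : x ≠ 0)
    (hpx : p • x = x) {t : S} (ht : t ∈ B) : t • x = 0 ↔ t * p = 0 := by
  constructor
  · intro h
    by_contra h0
    obtain ⟨s, hs, hst⟩ := hp.left hreg ht h0
    apply hx
    rw [← hpx, ← hst, mul_assoc, mul_smul, mul_smul, hpx, h, smul_zero]
  · intro h
    rw [← hpx, ← mul_smul, h, zero_smul]

/-- transport of a primitive idempotent -/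
theorem Prim.transport {B : Subring S} {f : S} (hf : Prim B f) {a y e : S} (ha : a ∈ B)
    (hy : y ∈ B) (he : e ∈ B) (haf : a * f = a) (hea : e * a = a) (ha0 : a ≠ 0)
    (haya : a * y * a = a) : Prim B (a * y * e) := by
  have hg : f * y * a = f := by
    refine hf.eq_of_idem (B.mul_mem (B.mul_mem hf.mem hy) ha) ?_ ?_ ?_ ?_
    · calc f * y * a * (f * y * a) = f * y * (a * f) * y * a := by simp only [mul_assoc]
        _ = f * y * (a * y * a) := by rw [haf]; simp only [mul_assoc]
        _ = f * y * a := by rw [haya]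
    · intro h0
      apply ha0
      calc a = a * y * a := haya.symm
        _ = (a * f) * y * a := by rw [haf]
        _ = a * (f * y * a) := by simp only [mul_assoc]
        _ = 0 := by rw [h0, mul_zero]
    · rw [← mul_assoc, ← mul_assoc, hf.idem]
    · rw [mul_assoc, haf]
  have hmem : a * y * e ∈ B := B.mul_mem (B.mul_mem ha hy) he
  have hidem : a * y * e * (a * y * e) = a * y * e := by
    calc a * y * e * (a * y * e) = a * y * (e * a) * y * e := by simp only [mul_assoc]
      _ = (a * y * a) * y * e := by rw [hea]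
      _ = a * y * e := by rw [haya]
  have hea' : a * y * e * a = a := by rw [mul_assoc, hea, haya]
  refine ⟨hmem, hidem, ?_, ?_⟩
  · intro h0
    apply ha0
    rw [← hea', h0, zero_mul]
  · intro x hx hx0
    set h := f * (y * e * x * a) * f with hh
    have h1 : a * y * e * x * (a * y * e) = a * h * y * e := by
      calc a * y * e * x * (a * y * e) = (a * f) * y * e * x * (a * f) * y * e := by
            rw [haf]; simp only [mul_assoc]
        _ = a * h * y * e := by rw [hh]; simp only [mul_assoc]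
    have hh0 : h ≠ 0 := by
      intro h0
      apply hx0
      rw [h1, h0, mul_zero, zero_mul, zero_mul]
    obtain ⟨w, hw, hwf⟩ := hf.div (y * e * x * a)
      (B.mul_mem (B.mul_mem (B.mul_mem hy he) hx) ha) hh0
    rw [← hh] at hwf
    have hfh : f * h = h := by rw [hh, ← mul_assoc, ← mul_assoc, hf.idem]
    refine ⟨a * w * f * y, B.mul_mem (B.mul_mem (B.mul_mem ha hw) hf.mem) hy, ?_⟩
    calc a * y * e * (a * w * f * y) * (a * y * e) * (a * y * e * x * (a * y * e))
        = (a * y * e * a) * w * f * y * ((a * y * e) * (a * y * e) * x * (a * y * e)) := by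
          simp only [mul_assoc]
      _ = a * w * f * y * (a * h * y * e) := by rw [hea', hidem, h1]
      _ = a * w * (f * y * a) * h * y * e := by simp only [mul_assoc]
      _ = (a * f) * w * f * h * y * e := by rw [hg, haf]
      _ = a * (f * w * f * h) * y * e := by simp only [mul_assoc]
      _ = a * y * e := by rw [hwf, haf]

end Prim

section Branch

variable {S : Type u} [Ring S]

/-- the left ideal attached to a decreasing sequence of idempotents -/
def branchIdeal (e : ℕ → S) (h : ∀ i, e i * e (i + 1) = e (i + 1)) : Ideal S where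
  carrier := {t | ∃ i, t * e i = 0}
  add_mem' := by
    have key : ∀ (t : S) (i : ℕ), t * e i = 0 → ∀ j, i ≤ j → t * e j = 0 := by
      intro t i hi j hj
      induction j, hj using Nat.le_induction with
      | base => exact hi
      | succ j hj ih => rw [← h j, ← mul_assoc, ih, zero_mul]
    rintro a b ⟨i, hi⟩ ⟨j, hj⟩
    exact ⟨max i j, by rw [add_mul, key a i hi _ (le_max_left _ _),
      key b j hj _ (le_max_right _ _), add_zero]⟩
  zero_mem' := ⟨0, zero_mul _⟩
  smul_mem' := by
    rintro c a ⟨i, hi⟩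
    exact ⟨i, by rw [smul_eq_mul, mul_assoc, hi, mul_zero]⟩

theorem mem_branchIdeal (e : ℕ → S) (h : ∀ i, e i * e (i + 1) = e (i + 1)) (t : S) :
    t ∈ branchIdeal e h ↔ ∃ i, t * e i = 0 := Iff.rfl

theorem fix_mk (e : ℕ → S) (he : ∀ i, e i * e i = e i) (h : ∀ i, e i * e (i + 1) = e (i + 1))
    (i : ℕ) : e i • (Submodule.Quotient.mk 1 : S ⧸ branchIdeal e h) = Submodule.Quotient.mk 1 := by
  rw [← Submodule.Quotient.mk_smul, smul_eq_mul, mul_one, Submodule.Quotient.eq, mem_branchIdeal]
  exact ⟨i, by rw [sub_mul, he, one_mul, sub_self]⟩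

theorem branch_simple (B : ℕ → Subring S) (hmono : Monotone B) (hcov : ∀ s : S, ∃ n, s ∈ B n)
    (hreg : ∀ n, ∀ a ∈ B n, ∃ x ∈ B n, a * x * a = a) (e : ℕ → S) (k : ℕ → ℕ)
    (hk : ∀ i, i ≤ k i) (hP : ∀ i, Prim (B (k i)) (e i))
    (h : ∀ i, e i * e (i + 1) = e (i + 1)) : IsSimpleModule S (S ⧸ branchIdeal e h) := by
  rw [isSimpleModule_iff_toSpanSingleton_surjective]
  refine ⟨?_, ?_⟩
  · refine Submodule.Quotient.nontrivial_iff.2 ?_
    intro htop
    have : (1 : S) ∈ branchIdeal e h := by rw [htop]; trivial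
    obtain ⟨i, hi⟩ := this
    rw [one_mul] at hi
    exact (hP i).ne hi
  · intro x hx y
    obtain ⟨t, rfl⟩ := Submodule.Quotient.mk_surjective _ x
    obtain ⟨s, rfl⟩ := Submodule.Quotient.mk_surjective _ y
    have ht : t ∉ branchIdeal e h := fun h' => hx ((Submodule.Quotient.mk_eq_zero _).2 h')
    obtain ⟨i, hi⟩ := hcov t
    have hti : t ∈ B (k i) := hmono (hk i) hi
    have h0 : t * e i ≠ 0 := fun h0 => ht ⟨i, h0⟩
    obtain ⟨w, -, hw⟩ := (hP i).left (hreg _) hti h0
    refine ⟨s * w, ?_⟩
    rw [LinearMap.toSpanSingleton_apply, ← Submodule.Quotient.mk_smul, Submodule.Quotient.eq,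
      mem_branchIdeal]
    refine ⟨i, ?_⟩
    rw [smul_eq_mul, sub_mul, mul_assoc s w t, mul_assoc s, mul_assoc w, ← mul_assoc w, hw, sub_self]

end Branch

end Pool.Agent.H79.CU
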