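import Mathlib
import Pool.Agent.H79.CU.Branch

set_option autoImplicit false

universe u v

namespace Pool.Agent.H79.CU

open Module

section Irred

variable {S : Type u} [Ring S] {V : Type v} [AddCommGroup V] [Module S V] (B : ℕ → Subring S)

/-- `x` is in `B k • v` -/
def Vn (v : V) (k : ℕ) (x : V) : Prop := ∃ t ∈ B k, x = t • v

/-- `v` is a pure vector: `B n • v` is a simple `B n`-module for all `n` -/
def Pure (v : V) : Prop := ∀ n, ∀ t ∈ B n, t • v ≠ 0 → ∃ s ∈ B n, s • t • v = v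

variable {B}

theorem Vn.mono (hmono : Monotone B) {v x : V} {k l : ℕ} (hkl : k ≤ l) (h : Vn B v k x) :
    Vn B v l x := by
  obtain ⟨t, ht, rfl⟩ := h
  exact ⟨t, hmono hkl ht, rfl⟩

theorem Vn.smul {v x : V} {k : ℕ} (h : Vn B v k x) {t : S} (ht : t ∈ B k) : Vn B v k (t • x) := by
  obtain ⟨u, hu, rfl⟩ := h
  exact ⟨t * u, (B k).mul_mem ht hu, by rw [mul_smul]⟩

theorem Vn.add {v x y : V} {k : ℕ} (h : Vn B v k x) (h' : Vn B v k y) : Vn B v k (x + y) := by
  obtain ⟨u, hu, rfl⟩ := h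
  obtain ⟨w, hw, rfl⟩ := h'
  exact ⟨u + w, (B k).add_mem hu hw, by rw [add_smul]⟩

theorem Vn.neg {v x : V} {k : ℕ} (h : Vn B v k x) : Vn B v k (-x) := by
  obtain ⟨u, hu, rfl⟩ := h
  exact ⟨-u, (B k).neg_mem hu, by rw [neg_smul]⟩

/-- in a level all nonzero vectors generate -/
theorem Vn.gen {v : V} (hv : Pure B v) {x y : V} {k : ℕ} (hx : Vn B v k x) (hx0 : x ≠ 0)
    (hy : Vn B v k y) : ∃ t ∈ B k, t • x = y := by
  obtain ⟨u, hu, rfl⟩ := hx
  obtain ⟨w, hw, rfl⟩ := hy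
  obtain ⟨s, hs, hsu⟩ := hv k u hu hx0
  exact ⟨w * s, (B k).mul_mem hw hs, by rw [mul_smul, hsu]⟩

variable (B)

/-- the branch construction cannot be continued at `(k, e)` -/
def Stuck (v : V) (k : ℕ) (e : S) : Prop :=
  ∀ m, k < m → ∀ e', Prim (B m) e' → e * e' = e' → e' * e = e' →
    ∃ s, Vn B v k s ∧ s ≠ 0 ∧ e' • s = s

variable {B}

/-- Claim A -/
theorem claimA (hmono : Monotone B) (hreg : ∀ n, ∀ a ∈ B n, ∃ x ∈ B n, a * x * a = a)
    (hprim : ∀ n, ∀ f ∈ B n, f * f = f → f ≠ 0 → ∃ p, Prim (B n) p ∧ f * p = p ∧ p * f = p)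
    {v : V} (hv : Pure B v) {k : ℕ} {e : S} (he : Prim (B k) e) (hst : Stuck B v k e)
    {m : ℕ} (hm : k < m) {x : V} (hx0 : x ≠ 0) (hx : Vn B v m x) (hex : e • x = x) :
    ∃ s, Vn B v k s ∧ s ≠ 0 ∧ ∀ t ∈ B m, t • x = 0 ↔ t • s = 0 := by
  have hem : e ∈ B m := hmono hm.le he.mem
  obtain ⟨f, hf, hef, hfe⟩ := hprim m e hem he.idem he.ne
  obtain ⟨s₀, hs₀, hs₀0, hfs₀⟩ := hst m hm f hf hef hfe
  obtain ⟨t₀, ht₀, htx⟩ := (hs₀.mono hmono hm.le).gen hv hs₀0 hx
  set a := e * t₀ * f with ha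
  have hamem : a ∈ B m := (B m).mul_mem ((B m).mul_mem hem ht₀) hf.mem
  have has : a • s₀ = x := by rw [ha, mul_smul, mul_smul, hfs₀, htx, hex]
  have ha0 : a ≠ 0 := by
    intro h0
    apply hx0
    rw [← has, h0, zero_smul]
  have haf : a * f = a := by rw [ha, mul_assoc, hf.idem]
  have hea : e * a = a := by rw [ha, ← mul_assoc, ← mul_assoc, he.idem]
  obtain ⟨y, hy, haya⟩ := hreg m a hamem
  have hP : Prim (B m) (a * y * e) := hf.transport hamem hy hem haf hea ha0 haya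
  have h1 : e * (a * y * e) = a * y * e := by rw [← mul_assoc, ← mul_assoc, hea]
  have h2 : a * y * e * e = a * y * e := by rw [mul_assoc, he.idem]
  have h3 : (a * y * e) • x = x := by
    rw [mul_smul, hex, ← has, ← mul_smul, haya]
  obtain ⟨s, hs, hs0, hes⟩ := hst m hm _ hP h1 h2
  refine ⟨s, hs, hs0, fun t ht => ?_⟩
  rw [hP.fix (hreg m) hx0 h3 ht, hP.fix (hreg m) hs0 hes ht]

/-- Claim B -/
theorem claimB (hmono : Monotone B)
    (hreg : ∀ n, ∀ a ∈ B n, ∃ x ∈ B n, a * x * a = a)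
    (hprim : ∀ n, ∀ f ∈ B n, f * f = f → f ≠ 0 → ∃ p, Prim (B n) p ∧ f * p = p ∧ p * f = p)
    {v : V} (hv : Pure B v) (hcovV : ∀ x : V, ∃ n, Vn B v n x) {k : ℕ} {e : S}
    (he : Prim (B k) e)
    (hst : Stuck B v k e) {m : ℕ} (hm : k < m) {p q : V} (hp : Vn B v m p) (hq : Vn B v m q)
    (hep : e • p = p) (heq : e • q = q) (hp0 : p ≠ 0) {a : S} (ha : a ∈ B m) (hap : a • p = 0)
    (haq : a • q ≠ 0) (x : V) (hex : e • x = x) : Vn B v m x := by
  by_cases hx0 : x = 0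
  · exact ⟨0, (B m).zero_mem, by rw [hx0, zero_smul]⟩
  obtain ⟨n, hn⟩ := hcovV x
  set m' := max m n with hm'
  have hmm' : m ≤ m' := le_max_left _ _
  have hx : Vn B v m' x := hn.mono hmono (le_max_right _ _)
  have hem : e ∈ B m := hmono hm.le he.mem
  obtain ⟨s, hs, hs0, hann⟩ := claimA hmono hreg hprim hv he hst (hm.trans_le hmm') hx0 hx hex
  have hsm : Vn B v m s := hs.mono hmono hm.le
  obtain ⟨t₀, ht₀, hts⟩ := hsm.gen hv hs0 hq
  set t := e * t₀ with ht
  have htm : t ∈ B m := (B m).mul_mem hem ht₀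
  have htq : t • s = q := by rw [ht, mul_smul, hts, heq]
  have het : e * t = t := by rw [ht, ← mul_assoc, he.idem]
  -- translation of annihilators
  have hannm : ∀ r ∈ B m, r • x = 0 ↔ r • s = 0 := fun r hr => hann r (hmono hmm' hr)
  have hatx : a • t • x ≠ 0 := by
    rw [← mul_smul, Ne, hannm _ ((B m).mul_mem ha htm), mul_smul, htq]
    exact haq
  set y := p + t • x with hy
  have hy0 : y ≠ 0 := by
    intro h0
    apply hatx
    have : a • y = a • t • x := by rw [hy, smul_add, hap, zero_add]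
    rw [← this, h0, smul_zero]
  have hey : e • y = y := by rw [hy, smul_add, hep, ← mul_smul, het]
  have hyV : Vn B v m' y := (hp.mono hmono hmm').add (hx.smul (hmono hmm' htm))
  obtain ⟨s', hs', hs'0, hann'⟩ := claimA hmono hreg hprim hv he hst (hm.trans_le hmm') hy0 hyV hey
  have hannm' : ∀ r ∈ B m, r • y = 0 ↔ r • s' = 0 := fun r hr => hann' r (hmono hmm' hr)
  have hay : a • y = a • t • x := by rw [hy, smul_add, hap, zero_add]
  have has' : a • s' ≠ 0 := by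
    rw [Ne, ← hannm' a ha, hay]
    exact hatx
  obtain ⟨u, hu, huas⟩ := ((hs'.mono hmono hm.le).smul ha).gen hv has' (hs'.mono hmono hm.le)
  have h1 : (u * a - 1) • y = 0 := by
    rw [hannm' _ ((B m).sub_mem ((B m).mul_mem hu ha) (B m).one_mem), sub_smul, mul_smul, huas,
      one_smul, sub_self]
  have h2 : u • a • t • x = p + t • x := by
    rw [sub_smul, mul_smul, hay, one_smul, sub_eq_zero] at h1
    exact h1
  set c := (u * a - 1) * t with hc
  have hcm : c ∈ B m :=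
    (B m).mul_mem ((B m).sub_mem ((B m).mul_mem hu ha) (B m).one_mem) htm
  have hcx : c • x = p := by
    rw [hc, mul_smul, sub_smul, mul_smul, h2, one_smul, add_sub_cancel_right]
  have hcs : c • s ≠ 0 := by
    rw [Ne, ← hannm c hcm, hcx]
    exact hp0
  obtain ⟨c', hc', hc's⟩ := (hsm.smul hcm).gen hv hcs hsm
  have h3 : (c' * c - 1) • x = 0 := by
    rw [hannm _ ((B m).sub_mem ((B m).mul_mem hc' hcm) (B m).one_mem), sub_smul, mul_smul, hc's,
      one_smul, sub_self]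
  have h4 : x = c' • p := by
    rw [sub_smul, mul_smul, hcx, one_smul, sub_eq_zero] at h3
    exact h3.symm
  rw [h4]
  exact hp.smul hc'

/-- if the construction gets stuck then `V` is a simple `B n`-module for all large `n` -/
theorem irred_of_stuck [IsSimpleRing S] [Nontrivial V] (hmono : Monotone B)
    (hcov : ∀ s : S, ∃ n, s ∈ B n)
    (hreg : ∀ n, ∀ a ∈ B n, ∃ x ∈ B n, a * x * a = a)
    (hprim : ∀ n, ∀ f ∈ B n, f * f = f → f ≠ 0 → ∃ p, Prim (B n) p ∧ f * p = p ∧ p * f = p)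
    (hsplit : ∀ f : S, f * f = f → f ≠ 0 → ∃ g : S, g * g = g ∧ g ≠ 0 ∧ g ≠ f ∧
      f * g = g ∧ g * f = g)
    {v : V} (hv : Pure B v) (hcovV : ∀ x : V, ∃ n, Vn B v n x) {k : ℕ} {e : S}
    (he : Prim (B k) e) (hst : Stuck B v k e) :
    ∃ N, ∀ n, N ≤ n → ∀ x y : V, x ≠ 0 → ∃ t ∈ B n, t • x = y := by
  obtain ⟨g, hgg, hg0, hge, heg, hge'⟩ := hsplit e he.idem he.ne
  obtain ⟨z, hz⟩ := faithful (V := V) g hg0
  obtain ⟨z', hz'⟩ := faithful (V := V) (e - g) (sub_ne_zero.2 (Ne.symm hge))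
  obtain ⟨n₁, hn₁⟩ := hcov g
  obtain ⟨n₂, hn₂⟩ := hcovV (g • z)
  obtain ⟨n₃, hn₃⟩ := hcovV ((e - g) • z')
  set m := k + 1 + n₁ + n₂ + n₃ with hm
  have hgm : g ∈ B m := hmono (by omega) hn₁
  have hq : Vn B v m (g • z) := hn₂.mono hmono (by omega)
  have hp : Vn B v m ((e - g) • z') := hn₃.mono hmono (by omega)
  have hX : ∀ x : V, e • x = x → Vn B v m x := by
    intro x hx
    refine claimB hmono hreg hprim hv hcovV he hst (by omega) hp hq ?_ ?_ hz' hgm ?_ ?_ x hx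
    · rw [← mul_smul, mul_sub, he.idem, heg]
    · rw [← mul_smul, heg]
    · rw [← mul_smul, mul_sub, hge', hgg, sub_self, zero_smul]
    · rw [← mul_smul, hgg]
      exact hz
  have hall := mem_of_ideal (S := S) (fun s => ∃ N, ∀ x : V, Vn B v N (s • x))
    ⟨0, fun x => ⟨0, (B 0).zero_mem, by rw [zero_smul, zero_smul]⟩⟩
    (fun a b ⟨N, hN⟩ ⟨M, hM⟩ => ⟨max N M, fun x => by
      rw [add_smul]
      exact ((hN x).mono hmono (le_max_left _ _)).add ((hM x).mono hmono (le_max_right _ _))⟩)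
    (fun a ⟨N, hN⟩ => ⟨N, fun x => by rw [neg_smul]; exact (hN x).neg⟩)
    (fun a b ⟨N, hN⟩ => by
      obtain ⟨M, hM⟩ := hcov a
      exact ⟨max N M, fun x => by
        rw [mul_smul]
        exact ((hN x).mono hmono (le_max_left _ _)).smul (hmono (le_max_right _ _) hM)⟩)
    (fun a b ⟨N, hN⟩ => ⟨N, fun x => by rw [mul_smul]; exact hN _⟩) he.ne
    ⟨m, fun x => hX _ (by rw [← mul_smul, he.idem])⟩ 1
  obtain ⟨N, hN⟩ := hall
  refine ⟨N, fun n hn x y hx => ?_⟩
  have h1 : ∀ x : V, Vn B v n x := by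
    intro x
    have := hN x
    rw [one_smul] at this
    exact this.mono hmono hn
  exact (h1 x).gen hv hx (h1 y)

end Irred

section Exists

variable {S : Type u} [Ring S]

/-- **Lemma 1.** If all simple `S`-modules are isomorphic then there is a simple `S`-module that is
simple over `B n` for all large `n`. -/
theorem exists_irred [IsSimpleRing S] (B : ℕ → Subring S) (hmono : Monotone B)
    (hcov : ∀ s : S, ∃ n, s ∈ B n)
    (hreg : ∀ n, ∀ a ∈ B n, ∃ x ∈ B n, a * x * a = a)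
    (hprim : ∀ n, ∀ f ∈ B n, f * f = f → f ≠ 0 → ∃ p, Prim (B n) p ∧ f * p = p ∧ p * f = p)
    (hsplit : ∀ f : S, f * f = f → f ≠ 0 → ∃ g : S, g * g = g ∧ g ≠ 0 ∧ g ≠ f ∧
      f * g = g ∧ g * f = g)
    (hU : ∀ (V W : Type u) [AddCommGroup V] [AddCommGroup W] [Module S V] [Module S W]
      [IsSimpleModule S V] [IsSimpleModule S W], Nonempty (V ≃ₗ[S] W)) :
    ∃ (V : Type u) (_ : AddCommGroup V) (_ : Module S V), IsSimpleModule S V ∧
      ∃ N, ∀ n, N ≤ n → ∀ x y : V, x ≠ 0 → ∃ t ∈ B n, t • x = y := by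
  classical
  -- the base branch
  have hstep : ∀ (i : ℕ) (p : {p : S // Prim (B i) p}), ∃ q : {q : S // Prim (B (i + 1)) q},
      p.1 * q.1 = q.1 ∧ q.1 * p.1 = q.1 := by
    intro i p
    obtain ⟨q, hq, h1, h2⟩ := hprim (i + 1) p.1 (hmono (Nat.le_succ i) p.2.mem) p.2.idem p.2.ne
    exact ⟨⟨q, hq⟩, h1, h2⟩
  choose nx hnx1 hnx2 using hstep
  obtain ⟨p₀, hp₀, -, -⟩ := hprim 0 1 (B 0).one_mem (mul_one 1) one_ne_zero
  let br : ∀ i : ℕ, {p : S // Prim (B i) p} := fun i =>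
    Nat.rec (motive := fun i => {p : S // Prim (B i) p}) ⟨p₀, hp₀⟩ (fun i p => nx i p) i
  let e₀ : ℕ → S := fun i => (br i).1
  have hP₀ : ∀ i, Prim (B i) (e₀ i) := fun i => (br i).2
  have h₀ : ∀ i, e₀ i * e₀ (i + 1) = e₀ (i + 1) := fun i => hnx1 i (br i)
  have hsimple₀ : IsSimpleModule S (S ⧸ branchIdeal e₀ h₀) :=
    branch_simple B hmono hcov hreg e₀ id (fun i => le_rfl) hP₀ h₀
  let V : Type u := S ⧸ branchIdeal e₀ h₀
  let v : V := Submodule.Quotient.mk 1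
  have hfix : ∀ i, e₀ i • v = v := fix_mk e₀ (fun i => (hP₀ i).idem) h₀
  have hv : Pure B v := by
    intro n t ht htv
    have h1 : t * e₀ n ≠ 0 := by
      intro h0
      apply htv
      rw [← hfix n, ← mul_smul, h0, zero_smul]
    obtain ⟨s, hs, hst⟩ := (hP₀ n).left (hreg n) ht h1
    refine ⟨s, hs, ?_⟩
    calc s • t • v = s • t • e₀ n • v := by rw [hfix]
      _ = (s * t * e₀ n) • v := by rw [mul_smul, mul_smul]
      _ = v := by rw [hst, hfix]
  have hcovV : ∀ x : V, ∃ n, Vn B v n x := by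
    intro x
    obtain ⟨t, rfl⟩ := Submodule.Quotient.mk_surjective _ x
    obtain ⟨n, hn⟩ := hcov t
    refine ⟨n, t, hn, ?_⟩
    show _ = t • (Submodule.Quotient.mk 1 : S ⧸ branchIdeal e₀ h₀)
    rw [← Submodule.Quotient.mk_smul, smul_eq_mul, mul_one]
  have hnt : Nontrivial V := IsSimpleModule.nontrivial S V
  refine ⟨V, inferInstance, inferInstance, hsimple₀, ?_⟩
  by_cases hcase : ∃ (k : ℕ) (e : S), Prim (B k) e ∧ Stuck B v k e
  · obtain ⟨k, e, he, hst⟩ := hcase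
    exact irred_of_stuck hmono hcov hreg hprim hsplit hv hcovV he hst
  · exfalso
    -- the second branch
    have hnext : ∀ p : {p : ℕ × S // Prim (B p.1) p.2}, ∃ q : {q : ℕ × S // Prim (B q.1) q.2},
        p.1.1 < q.1.1 ∧ p.1.2 * q.1.2 = q.1.2 ∧ ∀ s, Vn B v p.1.1 s → s ≠ 0 → q.1.2 • s ≠ s := by
      rintro ⟨⟨k, e⟩, he⟩
      have h1 : ¬ Stuck B v k e := fun h => hcase ⟨k, e, he, h⟩
      unfold Stuck at h1
      push Not at h1
      obtain ⟨m, hm, e', he', h2, h3, h4⟩ := h1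
      exact ⟨⟨⟨m, e'⟩, he'⟩, hm, h2, h4⟩
    choose next hn1 hn2 hn3 using hnext
    let sq : ℕ → {p : ℕ × S // Prim (B p.1) p.2} := fun i => next^[i] ⟨⟨0, p₀⟩, hp₀⟩
    have hsq : ∀ i, sq (i + 1) = next (sq i) := fun i => Function.iterate_succ_apply' next i _
    let e : ℕ → S := fun i => (sq i).1.2
    let k : ℕ → ℕ := fun i => (sq i).1.1
    have hP : ∀ i, Prim (B (k i)) (e i) := fun i => (sq i).2
    have he : ∀ i, e i * e (i + 1) = e (i + 1) := by
      intro i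
      show (sq i).1.2 * (sq (i + 1)).1.2 = (sq (i + 1)).1.2
      rw [hsq]
      exact hn2 _
    have hk : ∀ i, i ≤ k i := by
      intro i
      induction i with
      | zero => exact Nat.zero_le _
      | succ i ih =>
        have : k i < k (i + 1) := by
          show (sq i).1.1 < (sq (i + 1)).1.1
          rw [hsq]
          exact hn1 _
        omega
    have hno : ∀ i s, Vn B v (k i) s → s ≠ 0 → e (i + 1) • s ≠ s := by
      intro i
      show ∀ s, Vn B v (sq i).1.1 s → s ≠ 0 → (sq (i + 1)).1.2 • s ≠ s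
      rw [hsq]
      exact hn3 _
    have hsimple : IsSimpleModule S (S ⧸ branchIdeal e he) :=
      branch_simple B hmono hcov hreg e k hk hP he
    obtain ⟨θ⟩ := hU (S ⧸ branchIdeal e he) V
    set w : S ⧸ branchIdeal e he := Submodule.Quotient.mk 1 with hw
    have hw0 : w ≠ 0 := by
      intro h0
      rw [hw, Submodule.Quotient.mk_eq_zero] at h0
      obtain ⟨i, hi⟩ := h0
      rw [one_mul] at hi
      exact (hP i).ne hi
    have hs0 : θ w ≠ 0 := fun h => hw0 ((map_eq_zero_iff θ θ.injective).1 h)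
    have hsfix : ∀ i, e i • θ w = θ w := by
      intro i
      rw [← map_smul, hw, fix_mk e (fun i => (hP i).idem) he i]
    obtain ⟨j, hj⟩ := hcovV (θ w)
    exact hno j _ (hj.mono hmono (hk j)) hs0 (hsfix (j + 1))

end Exists

end Pool.Agent.H79.CU
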