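import Mathlib

set_option autoImplicit false

universe u v

namespace Pool.Agent.H79.CU

open Module

/-- every nonzero module over a (left) primitive factor ring of `D` has a simple submodule -/
def PFS (D : Type u) [Ring D] : Prop :=
  ∀ (W : Type u) [AddCommGroup W] [Module D W] [IsSimpleModule D W]
    (X : Type u) [AddCommGroup X] [Module D X] [Nontrivial X],
    (∀ c : D, (∀ w : W, c • w = 0) → ∀ x : X, c • x = 0) →
      ∃ T : Submodule D X, IsSimpleModule D T

section PrimMod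

variable {D : Type u} [Ring D] {S : Type u} [Ring S] {V : Type v} [AddCommGroup V] [Module S V]

/-- `b` kills the level -/
def Kill (π : D → S) (v : V) (b : S) : Prop := ∀ d : D, b • π d • v = 0

/-- the left ideal `P` -/
def pIdeal (π : D →+ S) (v : V) : Ideal D where
  carrier := {x | ∀ r, π (r * x) • v = 0}
  add_mem' := by
    intro a b ha hb r
    rw [mul_add, map_add, add_smul, ha r, hb r, add_zero]
  zero_mem' := by
    intro r
    rw [mul_zero, map_zero, zero_smul]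
  smul_mem' := by
    intro c x hx r
    rw [smul_eq_mul, ← mul_assoc]
    exact hx _

theorem pIdeal_simple {e : D} (π : D →+ S) (hπ : ∀ a b, π (a * e * b) = π a * π b)
    (hπ1 : π e = 1) (v : V) (hv0 : v ≠ 0) (hv : ∀ d : D, π d • v ≠ 0 → ∃ d', π d' • π d • v = v) :
    IsSimpleModule D (D ⧸ pIdeal π v) := by
  rw [isSimpleModule_iff_toSpanSingleton_surjective]
  constructor
  · refine Submodule.Quotient.nontrivial_iff.2 ?_
    intro htop
    have h1 : (1 : D) ∈ pIdeal π v := by rw [htop]; trivial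
    have h2 := h1 e
    rw [mul_one, hπ1, one_smul] at h2
    exact hv0 h2
  · intro x hx y
    obtain ⟨x, rfl⟩ := Submodule.Quotient.mk_surjective _ x
    obtain ⟨y, rfl⟩ := Submodule.Quotient.mk_surjective _ y
    have hx' : x ∉ pIdeal π v := fun h => hx ((Submodule.Quotient.mk_eq_zero _).2 h)
    have : ∃ r, π (r * x) • v ≠ 0 := by
      by_contra hcon
      push Not at hcon
      exact hx' hcon
    obtain ⟨r, hr⟩ := this
    obtain ⟨d', hd'⟩ := hv _ hr
    refine ⟨y * e * d' * e * r, ?_⟩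
    rw [LinearMap.toSpanSingleton_apply, ← Submodule.Quotient.mk_smul, Submodule.Quotient.eq]
    intro r'
    have h1 : r' * ((y * e * d' * e * r) • x - y) =
        (r' * y) * e * (d' * e * (r * x)) - r' * y := by
      rw [smul_eq_mul, mul_sub]
      simp only [mul_assoc]
    rw [h1, map_sub, hπ, hπ, sub_smul, mul_smul, mul_smul, hd', sub_self]

theorem pi_left {e : D} (he : e * e = e) (π : D →+ S) (hπ : ∀ a b, π (a * e * b) = π a * π b)
    (hπ1 : π e = 1) (c : D) : π (e * c) = π c := by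
  have h := hπ e c
  rwa [he, hπ1, one_mul] at h

/-- right multiplication on the quotient by a two-sided ideal -/
def rmul (L : Ideal D) (hL : ∀ x ∈ L, ∀ r, x * r ∈ L) (c : D) : (D ⧸ L) →ₗ[D] (D ⧸ L) :=
  L.mapQ L (LinearMap.toSpanSingleton D D c) (fun x hx => hL x hx c)

theorem rmul_mk (L : Ideal D) (hL : ∀ x ∈ L, ∀ r, x * r ∈ L) (c x : D) :
    rmul L hL c (Submodule.Quotient.mk x) = Submodule.Quotient.mk (x * c) := rfl

/-- the two-sided ideal of the elements that generate an artinian submodule of `D ⧸ L` -/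
def sigma (L : Ideal D) : Ideal D where
  carrier := {b | IsArtinian D (Submodule.span D {(Submodule.Quotient.mk b : D ⧸ L)})}
  add_mem' := by
    intro a b ha hb
    have ha' : IsArtinian D (Submodule.span D {(Submodule.Quotient.mk a : D ⧸ L)}) := ha
    have hb' : IsArtinian D (Submodule.span D {(Submodule.Quotient.mk b : D ⧸ L)}) := hb
    have h := isArtinian_sup (Submodule.span D {(Submodule.Quotient.mk a : D ⧸ L)})
      (Submodule.span D {(Submodule.Quotient.mk b : D ⧸ L)})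
    refine isArtinian_of_le (t := Submodule.span D {(Submodule.Quotient.mk a : D ⧸ L)} ⊔
      Submodule.span D {(Submodule.Quotient.mk b : D ⧸ L)}) ?_
    rw [Submodule.span_singleton_le_iff_mem, Submodule.Quotient.mk_add]
    exact Submodule.add_mem_sup (Submodule.mem_span_singleton_self _)
      (Submodule.mem_span_singleton_self _)
  zero_mem' := by
    show IsArtinian D (Submodule.span D {(Submodule.Quotient.mk 0 : D ⧸ L)})
    have : Submodule.span D {(Submodule.Quotient.mk 0 : D ⧸ L)} = ⊥ := by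
      rw [Submodule.Quotient.mk_zero, Submodule.span_singleton_eq_bot]
    rw [this]
    infer_instance
  smul_mem' := by
    intro c b hb
    have hb' : IsArtinian D (Submodule.span D {(Submodule.Quotient.mk b : D ⧸ L)}) := hb
    refine isArtinian_of_le (t := Submodule.span D {(Submodule.Quotient.mk b : D ⧸ L)}) ?_
    rw [Submodule.span_singleton_le_iff_mem, Submodule.Quotient.mk_smul]
    exact Submodule.smul_mem _ _ (Submodule.mem_span_singleton_self _)

theorem mem_sigma (L : Ideal D) (b : D) :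
    b ∈ sigma L ↔ IsArtinian D (Submodule.span D {(Submodule.Quotient.mk b : D ⧸ L)}) := Iff.rfl

theorem sigma_mul (L : Ideal D) (hL : ∀ x ∈ L, ∀ r, x * r ∈ L) (x : D) (hx : x ∈ sigma L) (r : D) :
    x * r ∈ sigma L := by
  rw [mem_sigma] at hx ⊢
  refine isArtinian_of_le (t := LinearMap.range ((rmul L hL r).comp
    (Submodule.span D {(Submodule.Quotient.mk x : D ⧸ L)}).subtype)) ?_
  rw [Submodule.span_singleton_le_iff_mem]
  exact ⟨⟨Submodule.Quotient.mk x, Submodule.mem_span_singleton_self _⟩, rmul_mk L hL r x⟩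

theorem le_sigma (L : Ideal D) : L ≤ sigma L := by
  intro x hx
  rw [mem_sigma]
  have : Submodule.span D {(Submodule.Quotient.mk x : D ⧸ L)} = ⊥ := by
    rw [(Submodule.Quotient.mk_eq_zero L).2 hx, Submodule.span_singleton_eq_bot]
  rw [this]
  infer_instance

/-- **idempotents that are primitive modulo the annihilator of the level** -/
theorem prim_mod (hD : PFS D) {e : D} (he : e * e = e) (π : D →+ S)
    (hπ : ∀ a b, π (a * e * b) = π a * π b)
    (hπ1 : π e = 1) (v : V) (hv0 : v ≠ 0) (hv : ∀ d : D, π d • v ≠ 0 → ∃ d', π d' • π d • v = v)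
    (E : Subring S) (hEB : ∀ x ∈ E, ∃ d, π d = x) (hEreg : ∀ a ∈ E, ∃ x ∈ E, a * x * a = a)
    {f : S} (hf : f ∈ E) (hff : f * f = f) (hfQ : ¬ Kill π v f) :
    ∃ p ∈ E, p * p = p ∧ f * p = p ∧ p * f = p ∧ ¬ Kill π v p ∧
      ∀ g ∈ E, g * g = g → p * g = g → g * p = g → Kill π v g ∨ Kill π v (p - g) := by
  classical
  have hW := pIdeal_simple π hπ hπ1 v hv0 hv
  -- the two-sided ideals
  let 𝓛 : Set (Ideal D) := {L | (∀ x ∈ L, ∀ r, x * r ∈ L) ∧
    (∀ b : D, (∀ r r', π (r * b * r') • v = 0) → b ∈ L) ∧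
    ∀ c ∈ L, π c ∈ E → f * π c = π c → π c * f = π c → Kill π v (π c)}
  let Q : Ideal D :=
    { carrier := {b | ∀ r r', π (r * b * r') • v = 0}
      add_mem' := by
        intro a b ha hb r r'
        rw [mul_add, add_mul, map_add, add_smul, ha, hb, add_zero]
      zero_mem' := by
        intro r r'
        rw [mul_zero, zero_mul, map_zero, zero_smul]
      smul_mem' := by
        intro c x hx r r'
        rw [smul_eq_mul, ← mul_assoc]
        exact hx _ _ }
  have hQ𝓛 : Q ∈ 𝓛 := by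
    refine ⟨?_, fun b hb => hb, ?_⟩
    · intro x hx r a b
      rw [← mul_assoc, mul_assoc (a * x)]
      exact hx _ _
    · intro c hc _ _ _ d
      have h1 := hc e (e * d)
      have h2 : π (e * c * (e * d)) = π c * π d := by
        rw [← mul_assoc, hπ, pi_left he π hπ hπ1]
      rw [← mul_smul, ← h2]
      exact h1
  obtain ⟨L, hQL, hL⟩ := zorn_le_nonempty₀ 𝓛 (by
    intro c hc hch y hy
    refine ⟨sSup c, ⟨?_, ?_, ?_⟩, fun z hz => le_sSup hz⟩
    · intro x hx r
      rw [Submodule.mem_sSup_of_directed ⟨y, hy⟩ hch.directedOn] at hx ⊢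
      obtain ⟨z, hz, hxz⟩ := hx
      exact ⟨z, hz, (hc hz).1 x hxz r⟩
    · intro b hb
      exact (le_sSup hy) ((hc hy).2.1 b hb)
    · intro x hx
      rw [Submodule.mem_sSup_of_directed ⟨y, hy⟩ hch.directedOn] at hx
      obtain ⟨z, hz, hxz⟩ := hx
      exact (hc hz).2.2 x hxz) Q hQ𝓛
  have hL𝓛 : L ∈ 𝓛 := hL.prop
  obtain ⟨hL1, hL2, hL3⟩ := hL𝓛
  have hLtop : L ≠ ⊤ := by
    intro htop
    obtain ⟨c, hc⟩ := hEB f hf
    have h1 : c ∈ L := by rw [htop]; trivial
    have h2 := hL3 c h1 (by rw [hc]; exact hf) (by rw [hc, hff]) (by rw [hc, hff])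
    rw [hc] at h2
    exact hfQ h2
  have hnt : Nontrivial (D ⧸ L) := Submodule.Quotient.nontrivial_iff.2 hLtop
  obtain ⟨T, hT⟩ := hD (D ⧸ pIdeal π v) (D ⧸ L) (by
    intro c hc x
    obtain ⟨x, rfl⟩ := Submodule.Quotient.mk_surjective _ x
    rw [← Submodule.Quotient.mk_smul, Submodule.Quotient.mk_eq_zero, smul_eq_mul]
    refine hL1 c (hL2 c fun r r' => ?_) x
    have h1 := hc (Submodule.Quotient.mk r')
    rw [← Submodule.Quotient.mk_smul, Submodule.Quotient.mk_eq_zero, smul_eq_mul] at h1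
    have h2 := h1 r
    rwa [← mul_assoc] at h2)
  have hTne : T ≠ ⊥ := by
    rintro rfl
    have := IsSimpleModule.nontrivial D (⊥ : Submodule D (D ⧸ L))
    exact not_subsingleton _ (inferInstance : Subsingleton (⊥ : Submodule D (D ⧸ L)))
  obtain ⟨x, hxT, hx0⟩ := (Submodule.ne_bot_iff T).1 hTne
  obtain ⟨x, rfl⟩ := Submodule.Quotient.mk_surjective _ x
  have hxL : x ∉ L := fun h => hx0 ((Submodule.Quotient.mk_eq_zero _).2 h)
  have hxσ : x ∈ sigma L := by
    rw [mem_sigma]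
    have hTa : IsArtinian D T := inferInstance
    exact isArtinian_of_le (t := T) ((Submodule.span_singleton_le_iff_mem _ _).2 hxT)
  -- an element of `sigma L` with image in `f E f`, not killing the level
  have hex : ∃ c ∈ sigma L, π c ∈ E ∧ f * π c = π c ∧ π c * f = π c ∧ ¬ Kill π v (π c) := by
    by_contra hcon
    push Not at hcon
    have h1 : sigma L ∈ 𝓛 := ⟨sigma_mul L hL1, fun b hb => le_sigma L (hL2 b hb), hcon⟩
    exact hxL (hL.le_of_ge h1 (le_sigma L) hxσ)
  obtain ⟨c, hcσ, hcE, hfc, hcf, hcK⟩ := hex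
  obtain ⟨u, hu, hyuy⟩ := hEreg (π c) hcE
  obtain ⟨d', hd'⟩ := hEB (f * u * f) (E.mul_mem (E.mul_mem hf hu) hf)
  set c₀ := d' * e * c with hc₀
  have hc₀σ : c₀ ∈ sigma L := (sigma L).mul_mem_left _ hcσ
  have hπc₀ : π c₀ = f * u * f * π c := by rw [hc₀, hπ, hd']
  have hyp : π c * π c₀ = π c := by
    rw [hπc₀]
    calc π c * (f * u * f * π c) = (π c * f) * u * (f * π c) := by simp only [mul_assoc]
      _ = π c := by rw [hcf, hfc, hyuy]
  have hc₀E : π c₀ ∈ E := by
    rw [hπc₀]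
    exact E.mul_mem (E.mul_mem (E.mul_mem hf hu) hf) hcE
  have hc₀i : π c₀ * π c₀ = π c₀ := by
    calc π c₀ * π c₀ = f * u * f * π c * π c₀ := by rw [← hπc₀]
      _ = f * u * f * (π c * π c₀) := by rw [mul_assoc]
      _ = f * u * f * π c := by rw [hyp]
      _ = π c₀ := hπc₀.symm
  have hfc₀ : f * π c₀ = π c₀ := by
    rw [hπc₀]
    simp only [← mul_assoc]
    rw [hff]
  have hc₀f : π c₀ * f = π c₀ := by rw [hπc₀, mul_assoc, hcf]
  have hc₀K : ¬ Kill π v (π c₀) := by
    intro h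
    apply hcK
    intro d
    have h1 := h d
    rw [← hyp, mul_smul, h1, smul_zero]
  -- a minimal one
  set M₀ : Submodule D (D ⧸ L) := Submodule.span D {Submodule.Quotient.mk c₀} with hM₀
  have hM₀a : IsArtinian D M₀ := hc₀σ
  let 𝒞 : Set D := {c | (∃ a, c = a * c₀) ∧ π c ∈ E ∧ π c * π c = π c ∧ f * π c = π c ∧
    π c * f = π c ∧ ¬ Kill π v (π c)}
  have hc₀𝒞 : c₀ ∈ 𝒞 := ⟨⟨1, (one_mul _).symm⟩, hc₀E, hc₀i, hfc₀, hc₀f, hc₀K⟩
  let N : D → Submodule D M₀ := fun c =>
    (Submodule.span D {(Submodule.Quotient.mk c : D ⧸ L)}).comap M₀.subtype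
  have hwf : WellFounded ((· < ·) : Submodule D M₀ → Submodule D M₀ → Prop) :=
    (inferInstance : WellFoundedLT (Submodule D M₀)).wf
  obtain ⟨_, ⟨c₁, hc₁, rfl⟩, hmin⟩ := hwf.has_min (N '' 𝒞) ⟨_, c₀, hc₀𝒞, rfl⟩
  obtain ⟨⟨a₁, ha₁⟩, hc₁E, hc₁i, hfc₁, hc₁f, hc₁K⟩ := hc₁
  refine ⟨π c₁, hc₁E, hc₁i, hfc₁, hc₁f, hc₁K, fun g hg hgg hpg hgp => ?_⟩
  by_cases hgK : Kill π v g
  · exact Or.inl hgK
  right
  obtain ⟨γ₀, hγ₀⟩ := hEB g hg
  set γ := e * γ₀ with hγ
  have hπγ : π γ = g := by rw [hγ, pi_left he π hπ hπ1, hγ₀]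
  have heγ : e * γ = γ := by rw [hγ, ← mul_assoc, he]
  set c₂ := γ * e * c₁ with hc₂
  have hπc₂ : π c₂ = g := by rw [hc₂, hπ, hπγ, hgp]
  have hc₂𝒞 : c₂ ∈ 𝒞 := by
    refine ⟨⟨γ * e * a₁, by rw [hc₂, ha₁]; simp only [mul_assoc]⟩, ?_, ?_, ?_, ?_, ?_⟩
    · rw [hπc₂]; exact hg
    · rw [hπc₂]; exact hgg
    · rw [hπc₂, ← hpg, ← mul_assoc, hfc₁]
    · rw [hπc₂, ← hgp, mul_assoc, hc₁f]
    · rw [hπc₂]; exact hgK
  have hle : N c₂ ≤ N c₁ := by
    apply Submodule.comap_mono
    rw [Submodule.span_singleton_le_iff_mem]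
    have : (Submodule.Quotient.mk c₂ : D ⧸ L) = (γ * e) • Submodule.Quotient.mk c₁ := rfl
    rw [this]
    exact Submodule.smul_mem _ _ (Submodule.mem_span_singleton_self _)
  have hnlt : ¬ N c₂ < N c₁ := hmin _ ⟨c₂, hc₂𝒞, rfl⟩
  have heq : N c₁ ≤ N c₂ := by
    by_contra h
    exact hnlt (lt_of_le_not_ge hle h)
  have hmem : (Submodule.Quotient.mk c₁ : D ⧸ L) ∈
      Submodule.span D {(Submodule.Quotient.mk c₂ : D ⧸ L)} := by
    have h1 : (Submodule.Quotient.mk c₁ : D ⧸ L) ∈ M₀ := by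
      have : (Submodule.Quotient.mk c₁ : D ⧸ L) = a₁ • Submodule.Quotient.mk c₀ := by
        rw [ha₁]; rfl
      rw [this]
      exact Submodule.smul_mem _ _ (Submodule.mem_span_singleton_self _)
    have h2 : (⟨_, h1⟩ : M₀) ∈ N c₁ := Submodule.mem_span_singleton_self _
    exact heq h2
  obtain ⟨a, ha⟩ := Submodule.mem_span_singleton.1 hmem
  have hl : c₁ - a * c₂ ∈ L := by
    have : (Submodule.Quotient.mk (a * c₂) : D ⧸ L) = Submodule.Quotient.mk c₁ := ha
    have h1 := (Submodule.Quotient.eq L).1 this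
    have h2 := L.neg_mem h1
    rwa [neg_sub] at h2
  obtain ⟨δ, hδ⟩ := hEB (π c₁ - g) (E.sub_mem hc₁E hg)
  have hπ1' : π (a * c₂) = π a * g := by
    have : a * c₂ = (a * e * γ) * e * c₁ := by
      rw [hc₂]
      conv_lhs => rw [← heγ]
      simp only [mul_assoc]
    rw [this, hπ, hπ, hπγ, mul_assoc, hgp]
  have h1 : π ((c₁ - a * c₂) * e * δ) = π c₁ - g := by
    rw [hπ, map_sub, hπ1', hδ, sub_mul, mul_assoc (π a)]
    have h2 : π c₁ * (π c₁ - g) = π c₁ - g := by rw [mul_sub, hc₁i, hpg]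
    have h3 : g * (π c₁ - g) = 0 := by rw [mul_sub, hgp, hgg, sub_self]
    rw [h2, h3, mul_zero, sub_zero]
  have h2 := hL3 _ (hL1 _ (hL1 _ hl e) δ) (by rw [h1]; exact E.sub_mem hc₁E hg) (by
    rw [h1, mul_sub, hfc₁, ← hpg, ← mul_assoc, hfc₁]) (by
    rw [h1, sub_mul, hc₁f]
    congr 1
    rw [← hgp, mul_assoc, hc₁f])
  rwa [h1] at h2

end PrimMod

end Pool.Agent.H79.CU
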