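import Mathlib
import Pool.Agent.H79.CU.Irred
import Pool.Agent.H79.CU.PrimMod

set_option autoImplicit false

universe u v

namespace Pool.Agent.H79.CU

open Module

section Regular

theorem idem_join {C : Type u} [Ring C] (hreg : ∀ a : C, ∃ x, a * x * a = a) (I : Ideal C) {g : C}
    (hg : g ∈ I) (hgg : g * g = g) {y : C} (hy : y ∈ I) :
    ∃ g' ∈ I, g' * g' = g' ∧ g * g' = g ∧ y * g' = y := by
  obtain ⟨a, ha⟩ := hreg (y - y * g)
  obtain ⟨z, hz⟩ : ∃ z, z = y - y * g := ⟨_, rfl⟩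
  rw [← hz] at ha
  have hzI : z ∈ I := by rw [hz]; exact I.sub_mem hy (I.mul_mem_left _ hg)
  have hzg : z * g = 0 := by rw [hz, sub_mul, mul_assoc, hgg, sub_self]
  obtain ⟨h, hh⟩ : ∃ h, h = a * z := ⟨_, rfl⟩
  have hhI : h ∈ I := by rw [hh]; exact I.mul_mem_left _ hzI
  have hhh : h * h = h := by rw [hh, mul_assoc, ← mul_assoc z, ha]
  have hzh : z * h = z := by rw [hh, ← mul_assoc, ha]
  have hhg : h * g = 0 := by rw [hh, mul_assoc, hzg, mul_zero]
  have e1 : g * (g + h - g * h) = g := by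
    rw [mul_sub, mul_add, hgg, ← mul_assoc, hgg, add_sub_cancel_right]
  have e2 : h * (g + h - g * h) = h := by
    rw [mul_sub, mul_add, hhg, hhh, ← mul_assoc, hhg, zero_mul, sub_zero, zero_add]
  refine ⟨g + h - g * h, I.sub_mem (I.add_mem hg hhI) (I.mul_mem_left _ hhI), ?_, e1, ?_⟩
  · rw [sub_mul, add_mul, e1, e2, mul_assoc, e2]
  · have e3 : z * (g + h - g * h) = z := by
      rw [mul_sub, mul_add, hzg, hzh, ← mul_assoc, hzg, zero_mul, sub_zero, zero_add]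
    have e4 : y = z + y * g := by rw [hz, sub_add_cancel]
    calc y * (g + h - g * h) = (z + y * g) * (g + h - g * h) := by rw [← e4]
      _ = z + y * g := by rw [add_mul, e3, mul_assoc, e1]
      _ = y := e4.symm

theorem exists_inv_mod {C : Type u} [Ring C] {I : Ideal C} (hI : I.IsMaximal) {x : C}
    (hx : x ∉ I) : ∃ y, y * x - 1 ∈ I := by
  have hs : IsSimpleModule C (C ⧸ I) := isSimpleModule_iff_isCoatom.2 hI.out
  have hx' : (Submodule.Quotient.mk x : C ⧸ I) ≠ 0 := fun h =>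
    hx ((Submodule.Quotient.mk_eq_zero _).1 h)
  obtain ⟨y, hy⟩ := IsSimpleModule.toSpanSingleton_surjective C hx' (Submodule.Quotient.mk 1)
  refine ⟨y, ?_⟩
  rw [LinearMap.toSpanSingleton_apply, ← Submodule.Quotient.mk_smul, Submodule.Quotient.eq,
    smul_eq_mul] at hy
  exact hy

end Regular

section Chain

variable {S : Type u} [Ring S] (B : ℕ → Subring S)

/-- a maximal left ideal of a regular subring extends to the next one -/
theorem extend_maximal {C C' : Subring S} (hle : C ≤ C') (hreg : ∀ a ∈ C, ∃ x ∈ C, a * x * a = a)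
    (I : Ideal C) (hI : I ≠ ⊤) : ∃ I' : Ideal C', I'.IsMaximal ∧
      ∀ (x : S) (hx : x ∈ C), (⟨x, hx⟩ : C) ∈ I → (⟨x, hle hx⟩ : C') ∈ I' := by
  have hregC : ∀ a : C, ∃ x : C, a * x * a = a := by
    intro a
    obtain ⟨x, hx, hxa⟩ := hreg a.1 a.2
    exact ⟨⟨x, hx⟩, Subtype.ext hxa⟩
  let J : Ideal C' := Ideal.span {y | ∃ (x : S) (hx : x ∈ C), (⟨x, hx⟩ : C) ∈ I ∧
    y = ⟨x, hle hx⟩}
  have key : ∀ y ∈ J, ∃ g : C, g ∈ I ∧ g * g = g ∧ (y : S) * g = y := by
    intro y hy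
    induction hy using Submodule.span_induction with
    | mem y hy =>
      obtain ⟨x, hx, hxI, rfl⟩ := hy
      obtain ⟨g, hg, hgg, -, hxg⟩ := idem_join hregC I (g := 0) I.zero_mem (mul_zero 0) hxI
      exact ⟨g, hg, hgg, congrArg Subtype.val hxg⟩
    | zero => exact ⟨0, I.zero_mem, mul_zero 0, by simp⟩
    | add a b _ _ ha hb =>
      obtain ⟨g, hg, hgg, hag⟩ := ha
      obtain ⟨h, hh, hhh, hbh⟩ := hb
      obtain ⟨g', hg', hgg', e1, e2⟩ := idem_join hregC I hg hgg hh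
      have e1' : (g : S) * g' = g := congrArg Subtype.val e1
      have e2' : (h : S) * g' = h := congrArg Subtype.val e2
      refine ⟨g', hg', hgg', ?_⟩
      rw [Subring.coe_add, add_mul]
      congr 1
      · calc (a : S) * g' = (a : S) * g * g' := by rw [hag]
          _ = a := by rw [mul_assoc, e1', hag]
      · calc (b : S) * g' = (b : S) * h * g' := by rw [hbh]
          _ = b := by rw [mul_assoc, e2', hbh]
    | smul c a _ ha =>
      obtain ⟨g, hg, hgg, hag⟩ := ha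
      refine ⟨g, hg, hgg, ?_⟩
      rw [smul_eq_mul, Subring.coe_mul, mul_assoc, hag]
  have hJ : J ≠ ⊤ := by
    intro htop
    obtain ⟨g, hg, hgg, h1⟩ := key 1 (by rw [htop]; trivial)
    apply hI
    rw [Ideal.eq_top_iff_one]
    have : g = 1 := by
      apply Subtype.ext
      rw [Subring.coe_one, one_mul] at h1
      exact h1
    rw [← this]
    exact hg
  obtain ⟨I', hI', hJI'⟩ := Ideal.exists_le_maximal J hJ
  exact ⟨I', hI', fun x hx hxI => hJI' (Ideal.subset_span ⟨x, hx, hxI, rfl⟩)⟩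

/-- a simple module with a pure generator -/
theorem exists_pure [Nontrivial S] (hmono : Monotone B) (hcov : ∀ s : S, ∃ n, s ∈ B n)
    (hreg : ∀ n, ∀ a ∈ B n, ∃ x ∈ B n, a * x * a = a) :
    ∃ (V : Type u) (_ : AddCommGroup V) (_ : Module S V) (v : V), IsSimpleModule S V ∧ v ≠ 0 ∧
      Pure B v ∧ ∀ x : V, ∃ n, Vn B v n x := by
  classical
  have hstep : ∀ (m : ℕ) (I : {I : Ideal (B m) // I.IsMaximal}),
      ∃ I' : {I : Ideal (B (m + 1)) // I.IsMaximal}, ∀ (x : S) (hx : x ∈ B m),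
        (⟨x, hx⟩ : B m) ∈ I.1 → (⟨x, hmono (Nat.le_succ m) hx⟩ : B (m + 1)) ∈ I'.1 := by
    rintro m ⟨I, hI⟩
    obtain ⟨I', hI', h⟩ := extend_maximal (hmono (Nat.le_succ m)) (hreg m) I hI.ne_top
    exact ⟨⟨I', hI'⟩, h⟩
  choose nx hnx using hstep
  obtain ⟨I₀, hI₀⟩ := Ideal.exists_maximal (B 0)
  let P : ∀ m : ℕ, {I : Ideal (B m) // I.IsMaximal} := fun m =>
    Nat.rec (motive := fun m => {I : Ideal (B m) // I.IsMaximal}) ⟨I₀, hI₀⟩ (fun m I => nx m I) m
  have hP1 : ∀ (m : ℕ) (x : S) (hx : x ∈ B m), (⟨x, hx⟩ : B m) ∈ (P m).1 →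
      (⟨x, hmono (Nat.le_succ m) hx⟩ : B (m + 1)) ∈ (P (m + 1)).1 := fun m => hnx m (P m)
  have hP : ∀ (m l : ℕ) (hml : m ≤ l) (x : S) (hx : x ∈ B m), (⟨x, hx⟩ : B m) ∈ (P m).1 →
      (⟨x, hmono hml hx⟩ : B l) ∈ (P l).1 := by
    intro m l hml x hx h
    induction l, hml using Nat.le_induction with
    | base => exact h
    | succ l hml ih => exact hP1 l x _ ih
  -- the left ideal of `S`
  let PP : Ideal S :=
    { carrier := {t | ∃ (m : ℕ) (h : t ∈ B m), (⟨t, h⟩ : B m) ∈ (P m).1}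
      add_mem' := by
        rintro a b ⟨m, ha, ham⟩ ⟨l, hb, hbl⟩
        refine ⟨max m l, (B _).add_mem (hmono (le_max_left m l) ha) (hmono (le_max_right m l) hb), ?_⟩
        exact (P (max m l)).1.add_mem (hP m _ (le_max_left m l) a ha ham)
          (hP l _ (le_max_right m l) b hb hbl)
      zero_mem' := ⟨0, (B 0).zero_mem, (P 0).1.zero_mem⟩
      smul_mem' := by
        rintro c a ⟨m, ha, ham⟩
        obtain ⟨l, hc⟩ := hcov c
        refine ⟨max m l, (B _).mul_mem (hmono (le_max_right m l) hc) (hmono (le_max_left m l) ha), ?_⟩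
        exact (P (max m l)).1.mul_mem_left ⟨c, hmono (le_max_right m l) hc⟩
          (hP m _ (le_max_left m l) a ha ham) }
  have hmem : ∀ (m : ℕ) (t : S) (ht : t ∈ B m), t ∈ PP ↔ (⟨t, ht⟩ : B m) ∈ (P m).1 := by
    intro m t ht
    constructor
    · rintro ⟨l, htl, hl⟩
      by_contra hcon
      obtain ⟨y, hy⟩ := exists_inv_mod (P m).2 hcon
      have h1 := hP m _ (le_max_left m l) _ (y * ⟨t, ht⟩ - 1).2 hy
      have h2 := hP l _ (le_max_right m l) t htl hl
      have h3 := (P (max m l)).1.mul_mem_left ⟨y.1, hmono (le_max_left m l) y.2⟩ h2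
      have h4 := (P (max m l)).1.sub_mem h3 h1
      apply (P (max m l)).2.ne_top
      rw [Ideal.eq_top_iff_one]
      have h5 : (⟨y.1, hmono (le_max_left m l) y.2⟩ : B (max m l)) *
          ⟨t, hmono (le_max_right m l) htl⟩ -
          ⟨(y * ⟨t, ht⟩ - 1 : B m).1, hmono (le_max_left m l) (y * ⟨t, ht⟩ - 1).2⟩ = 1 := by
        apply Subtype.ext
        simp
      rw [h5] at h4
      exact h4
    · intro h
      exact ⟨m, ht, h⟩
  let V : Type u := S ⧸ PP
  let v : V := Submodule.Quotient.mk 1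
  have htv : ∀ t : S, t • v = (Submodule.Quotient.mk t : S ⧸ PP) := by
    intro t
    show t • (Submodule.Quotient.mk 1 : S ⧸ PP) = _
    rw [← Submodule.Quotient.mk_smul, smul_eq_mul, mul_one]
  have hv0 : v ≠ 0 := by
    intro h
    have h1 : (1 : S) ∈ PP := (Submodule.Quotient.mk_eq_zero _).1 h
    rw [hmem 0 1 (B 0).one_mem] at h1
    exact (P 0).2.ne_top ((Ideal.eq_top_iff_one _).2 h1)
  have hpure : Pure B v := by
    intro n t ht htv0
    rw [htv, Ne, Submodule.Quotient.mk_eq_zero, hmem n t ht] at htv0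
    obtain ⟨y, hy⟩ := exists_inv_mod (P n).2 htv0
    refine ⟨y.1, y.2, ?_⟩
    have h1 : y.1 * t - 1 ∈ PP := ⟨n, (y * ⟨t, ht⟩ - 1 : B n).2, hy⟩
    have h2 : (y.1 * t - 1) • v = 0 := by
      rw [htv, Submodule.Quotient.mk_eq_zero]
      exact h1
    rw [sub_smul, mul_smul, one_smul, sub_eq_zero] at h2
    exact h2
  have hVn : ∀ x : V, ∃ n, Vn B v n x := by
    intro x
    obtain ⟨t, rfl⟩ := Submodule.Quotient.mk_surjective _ x
    obtain ⟨n, hn⟩ := hcov t
    exact ⟨n, t, hn, (htv t).symm⟩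
  refine ⟨V, inferInstance, inferInstance, v, ?_, hv0, hpure, hVn⟩
  rw [isSimpleModule_iff_toSpanSingleton_surjective]
  refine ⟨⟨v, 0, hv0⟩, fun x hx y => ?_⟩
  obtain ⟨n, hxn⟩ := hVn x
  obtain ⟨m, hym⟩ := hVn y
  obtain ⟨t, -, ht⟩ := (hxn.mono hmono (le_max_left n m)).gen hpure hx
    (hym.mono hmono (le_max_right n m))
  exact ⟨t, ht⟩

end Chain

section Hprim

variable {S : Type u} [Ring S]

/-- an idempotent of a regular subring that is not primitive splits -/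
theorem exists_sub_idem {B : Subring S} (hreg : ∀ a ∈ B, ∃ x ∈ B, a * x * a = a) {p : S}
    (hp : p ∈ B) (hpp : p * p = p) (hp0 : p ≠ 0) (hnot : ¬ Prim B p) :
    ∃ g ∈ B, g * g = g ∧ g ≠ 0 ∧ g ≠ p ∧ p * g = g ∧ g * p = g := by
  have h1 : ∃ x ∈ B, p * x * p ≠ 0 ∧ ∀ y ∈ B, p * y * p * (p * x * p) ≠ p := by
    by_contra hcon
    push Not at hcon
    exact hnot ⟨hp, hpp, hp0, hcon⟩
  obtain ⟨x, hx, hx0, hxn⟩ := h1
  obtain ⟨c, hc⟩ : ∃ c, c = p * x * p := ⟨_, rfl⟩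
  rw [← hc] at hx0 hxn
  have hcB : c ∈ B := by rw [hc]; exact B.mul_mem (B.mul_mem hp hx) hp
  have hcp : c * p = c := by rw [hc, mul_assoc, hpp]
  have hpc : p * c = c := by rw [hc, ← mul_assoc, ← mul_assoc, hpp]
  obtain ⟨z, hz, hczc⟩ := hreg c hcB
  obtain ⟨g, hg⟩ : ∃ g, g = p * z * c := ⟨_, rfl⟩
  have hcg : c * g = c := by
    calc c * g = (c * p) * z * c := by rw [hg]; simp only [mul_assoc]
      _ = c := by rw [hcp, hczc]
  refine ⟨g, by rw [hg]; exact B.mul_mem (B.mul_mem hp hz) hcB, ?_, ?_, ?_, ?_, ?_⟩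
  · calc g * g = p * z * (c * g) := by
          conv_lhs => rw [hg, mul_assoc]
          rw [← hg]
      _ = g := by rw [hcg, ← hg]
  · intro h0
    apply hx0
    rw [← hcg, h0, mul_zero]
  · intro h
    apply hxn z hz
    calc p * z * p * c = p * z * (p * c) := by rw [mul_assoc]
      _ = g := by rw [hpc, ← hg]
      _ = p := h
  · rw [hg, ← mul_assoc, ← mul_assoc, hpp]
  · rw [hg, mul_assoc, hcp]

/-- **primitive idempotents exist** -/
theorem hprim_of_pfs [IsSimpleRing S] (B : ℕ → Subring S) (hmono : Monotone B)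
    (hcov : ∀ s : S, ∃ n, s ∈ B n)
    (hreg : ∀ n, ∀ a ∈ B n, ∃ x ∈ B n, a * x * a = a)
    (hU : ∀ (V W : Type u) [AddCommGroup V] [AddCommGroup W] [Module S V] [Module S W]
      [IsSimpleModule S V] [IsSimpleModule S W], Nonempty (V ≃ₗ[S] W))
    (D : ℕ → Type u) [∀ m, Ring (D m)] (hD : ∀ m, PFS (D m)) (e : ∀ m, D m)
    (he : ∀ m, e m * e m = e m) (π : ∀ m, D m →+ S)
    (hπ : ∀ m, ∀ a b, π m (a * e m * b) = π m a * π m b) (hπ1 : ∀ m, π m (e m) = 1)
    (hrange : ∀ m x, x ∈ B m ↔ ∃ d, π m d = x) :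
    ∀ n, ∀ f ∈ B n, f * f = f → f ≠ 0 → ∃ p, Prim (B n) p ∧ f * p = p ∧ p * f = p := by
  classical
  obtain ⟨V, _, _, v, hV, hv0, hv, hVn⟩ := exists_pure B hmono hcov hreg
  intro n f hf hff hf0
  by_contra hno
  push Not at hno
  have hv' : ∀ m, ∀ d : D m, π m d • v ≠ 0 → ∃ d', π m d' • π m d • v = v := by
    intro m d hd
    obtain ⟨s, hs, hsv⟩ := hv m (π m d) ((hrange m _).2 ⟨d, rfl⟩) hd
    obtain ⟨d', rfl⟩ := (hrange m s).1 hs
    exact ⟨d', hsv⟩
  -- the step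
  have hstep : ∀ (i : ℕ) (g : {g : S // g ∈ B n ∧ g * g = g ∧ g ≠ 0 ∧ f * g = g ∧ g * f = g}),
      ∃ g' : {g : S // g ∈ B n ∧ g * g = g ∧ g ≠ 0 ∧ f * g = g ∧ g * f = g},
        g.1 * g'.1 = g'.1 ∧ ∀ t ∈ B (n + i), g'.1 • t • v = 0 := by
    rintro i ⟨g, hg, hgg, hg0, hfg, hgf⟩
    have hkill : ∀ b : S, Kill (π (n + i)) v b → ∀ t ∈ B (n + i), b • t • v = 0 := by
      intro b hb t ht
      obtain ⟨d, rfl⟩ := (hrange _ t).1 ht
      exact hb d
    by_cases hgK : Kill (π (n + i)) v g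
    · exact ⟨⟨g, hg, hgg, hg0, hfg, hgf⟩, hgg, hkill g hgK⟩
    · obtain ⟨p, hp, hpp, hgp, hpg, hpK, hpmin⟩ := prim_mod (hD (n + i)) (he _) (π (n + i)) (hπ _)
        (hπ1 _) v hv0 (hv' _) (B n) (fun x hx => (hrange _ x).1 (hmono (Nat.le_add_right n i) hx))
        (hreg n) hg hgg hgK
      have hp0 : p ≠ 0 := by
        rintro rfl
        exact hpK (fun d => zero_smul _ _)
      have hfp : f * p = p := by rw [← hgp, ← mul_assoc, hfg]
      have hpf : p * f = p := by rw [← hpg, mul_assoc, hgf]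
      have hpn : ¬ Prim (B n) p := fun h => hno p h hfp hpf
      obtain ⟨q, hq, hqq, hq0, hqp, hpq, hqp'⟩ := exists_sub_idem (hreg n) hp hpp hp0 hpn
      rcases hpmin q hq hqq hpq hqp' with h | h
      · refine ⟨⟨q, hq, hqq, hq0, ?_, ?_⟩, ?_, hkill q h⟩
        · rw [← hpq, ← mul_assoc, hfp]
        · rw [← hqp', mul_assoc, hpf]
        · show g * q = q
          rw [← hpq, ← mul_assoc, hgp]
      · refine ⟨⟨p - q, (B n).sub_mem hp hq, ?_, sub_ne_zero.2 (Ne.symm hqp), ?_, ?_⟩, ?_,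
          hkill _ h⟩
        · rw [sub_mul, mul_sub, mul_sub, hpp, hpq, hqp', hqq, sub_self, sub_zero]
        · rw [mul_sub, hfp, ← hpq, ← mul_assoc, hfp]
        · rw [sub_mul, hpf]
          congr 1
          rw [← hqp', mul_assoc, hpf]
        · show g * (p - q) = p - q
          rw [mul_sub, hgp, ← hpq, ← mul_assoc, hgp]
  choose nx hnx1 hnx2 using hstep
  let sq : ℕ → {g : S // g ∈ B n ∧ g * g = g ∧ g ≠ 0 ∧ f * g = g ∧ g * f = g} := fun i =>
    Nat.rec (motive := fun _ => {g : S // g ∈ B n ∧ g * g = g ∧ g ≠ 0 ∧ f * g = g ∧ g * f = g})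
      ⟨f, hf, hff, hf0, hff, hff⟩ (fun i g => nx i g) i
  have hsq : ∀ i, sq (i + 1) = nx i (sq i) := fun i => rfl
  let h : ℕ → S := fun i => (sq i).1
  have hh : ∀ i, h i * h (i + 1) = h (i + 1) := by
    intro i
    show (sq i).1 * (sq (i + 1)).1 = (sq (i + 1)).1
    rw [hsq]
    exact hnx1 i _
  have hhh : ∀ i, h i * h i = h i := fun i => (sq i).2.2.1
  have hh0 : ∀ i, h i ≠ 0 := fun i => (sq i).2.2.2.1
  have hhk : ∀ i, ∀ t ∈ B (n + i), h (i + 1) • t • v = 0 := by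
    intro i
    show ∀ t ∈ B (n + i), (sq (i + 1)).1 • t • v = 0
    rw [hsq]
    exact hnx2 i _
  have hproper : branchIdeal h hh ≠ ⊤ := by
    intro htop
    have h1 : (1 : S) ∈ branchIdeal h hh := by rw [htop]; trivial
    obtain ⟨i, hi⟩ := h1
    rw [one_mul] at hi
    exact hh0 i hi
  obtain ⟨P, hP, hPle⟩ := Ideal.exists_le_maximal _ hproper
  have hsimple : IsSimpleModule S (S ⧸ P) := isSimpleModule_iff_isCoatom.2 hP.out
  obtain ⟨θ⟩ := hU (S ⧸ P) V
  have hw0 : (Submodule.Quotient.mk 1 : S ⧸ P) ≠ 0 := by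
    intro h0
    rw [Submodule.Quotient.mk_eq_zero] at h0
    exact hP.ne_top ((Ideal.eq_top_iff_one _).2 h0)
  have hs0 : θ (Submodule.Quotient.mk 1) ≠ 0 := fun h => hw0 ((map_eq_zero_iff θ θ.injective).1 h)
  have hsfix : ∀ i, h i • θ (Submodule.Quotient.mk 1) = θ (Submodule.Quotient.mk 1) := by
    intro i
    rw [← map_smul]
    congr 1
    rw [← Submodule.Quotient.mk_smul, Submodule.Quotient.eq, smul_eq_mul, mul_one]
    exact hPle ⟨i, by rw [sub_mul, hhh, one_mul, sub_self]⟩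
  obtain ⟨j, t, ht, hjt⟩ := hVn (θ (Submodule.Quotient.mk 1))
  apply hs0
  rw [← hsfix (j + 1), hjt]
  exact hhk j t (hmono (Nat.le_add_left j n) ht)

end Hprim

end Pool.Agent.H79.CU
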