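import Mathlib
import Pool.Agent.H79.CU.Irred
import Pool.Agent.H36.KG.OnePoint

set_option autoImplicit false

universe u v

namespace Pool.Agent.H79.CU

open Module Pool.Agent.H36.KG

section Hull

variable {R : Type u} [Ring R]

/-- every uniform module has an indecomposable injective hull -/
theorem exists_indInj_uniform (M : Type u) [AddCommGroup M] [Module R M] [Nontrivial M]
    (hunif : ∀ x y : M, x ≠ 0 → y ≠ 0 → ∃ r s : R, r • x = s • y ∧ r • x ≠ 0) :
    ∃ (N : Type u) (_ : AddCommGroup N) (_ : Module R N) (j : M →ₗ[R] N),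
      IndInj R N ∧ Function.Injective j ∧ Ess (LinearMap.range j) ⊤ := by
  obtain ⟨⟨J₀, hJ₀, i₀, hi₀⟩⟩ :=
    (inferInstance : CategoryTheory.EnoughInjectives (ModuleCat.{u} R)).presentation
      (ModuleCat.of R M)
  have hJ : Module.Injective R J₀ := by
    have := hJ₀
    exact (Module.injective_iff_injective_object R J₀).2 this
  let i : M →ₗ[R] J₀ := i₀.hom
  have hi : Function.Injective i := (ModuleCat.mono_iff_injective i₀).1 hi₀
  obtain ⟨E, C, hE, hEC⟩ := exists_hull hJ (LinearMap.range i)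
  have hiE : ∀ s, i s ∈ E := fun s => hE.1 ⟨s, rfl⟩
  let j : M →ₗ[R] E := i.codRestrict E hiE
  have hj : Function.Injective j := by
    intro a b hab
    exact hi (congrArg Subtype.val hab)
  have hess : Ess (LinearMap.range j) (⊤ : Submodule R E) := by
    refine ⟨le_top, fun x _ h0 => ?_⟩
    obtain ⟨r, ⟨s, hs⟩, hr0⟩ := hE.2 x.1 x.2 (fun h => h0 (Subtype.ext h))
    refine ⟨r, ⟨s, Subtype.ext hs⟩, fun h => hr0 ?_⟩
    have := congrArg Subtype.val h
    exact this
  refine ⟨E, inferInstance, inferInstance, j, ⟨hj.nontrivial, injective_of_isCompl hJ hEC, ?_⟩,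
    hj, hess⟩
  intro P Q hPQ
  by_contra hcon
  push Not at hcon
  obtain ⟨x, hxP, hx0⟩ := (Submodule.ne_bot_iff P).1 hcon.1
  obtain ⟨y, hyQ, hy0⟩ := (Submodule.ne_bot_iff Q).1 hcon.2
  obtain ⟨r, ⟨a, ha⟩, hr0⟩ := hess.2 x trivial hx0
  obtain ⟨s, ⟨b, hb⟩, hs0⟩ := hess.2 y trivial hy0
  have ha0 : a ≠ 0 := by
    rintro rfl
    exact hr0 (by rw [← ha, map_zero])
  have hb0 : b ≠ 0 := by
    rintro rfl
    exact hs0 (by rw [← hb, map_zero])
  obtain ⟨r', s', h1, h2⟩ := hunif a b ha0 hb0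
  have h3 : j (r' • a) ∈ P := by
    rw [map_smul, ha]
    exact P.smul_mem _ (P.smul_mem _ hxP)
  have h4 : j (r' • a) ∈ Q := by
    rw [h1, map_smul, hb]
    exact Q.smul_mem _ (Q.smul_mem _ hyQ)
  have h5 := (Submodule.disjoint_def.1 hPQ.disjoint) _ h3 h4
  exact h2 (hj (by rw [h5, map_zero]))

end Hull

section TwoPoints

variable {S : Type u} [Ring S]

/-- **Two points.** A simple ring `S` without primitive idempotents that is the union of an
increasing sequence of regular subrings with many primitive idempotents has two nonisomorphic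
indecomposable injective modules. -/
theorem two_points [IsSimpleRing S] (B : ℕ → Subring S) (hmono : Monotone B)
    (hcov : ∀ s : S, ∃ n, s ∈ B n)
    (hreg : ∀ n, ∀ a ∈ B n, ∃ x ∈ B n, a * x * a = a)
    (hprim : ∀ n, ∀ f ∈ B n, f * f = f → f ≠ 0 → ∃ p, Prim (B n) p ∧ f * p = p ∧ p * f = p)
    (hsplit : ∀ f : S, f * f = f → f ≠ 0 → ∃ g : S, g * g = g ∧ g ≠ 0 ∧ g ≠ f ∧
      f * g = g ∧ g * f = g)
    (hU : ∀ (N N' : Type u) [AddCommGroup N] [AddCommGroup N'] [Module S N] [Module S N'],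
      IndInj S N → IndInj S N' → Nonempty (N ≃ₗ[S] N')) : False := by
  classical
  have hU' : ∀ (V W : Type u) [AddCommGroup V] [AddCommGroup W] [Module S V] [Module S W]
      [IsSimpleModule S V] [IsSimpleModule S W], Nonempty (V ≃ₗ[S] W) := by
    intro V W _ _ _ _ _ _
    obtain ⟨N, _, _, j, hN, hj, -⟩ := exists_indInj (R := S) V
    obtain ⟨N', _, _, j', hN', hj', hess'⟩ := exists_indInj (R := S) W
    obtain ⟨φ⟩ := hU N N' hN hN'
    exact simple_iso_of_hull_iso j hj j' hj' hess' φ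
  obtain ⟨V, _, _, hV, N₀, hN₀⟩ := exists_irred B hmono hcov hreg hprim hsplit hU'
  have hnt : Nontrivial V := IsSimpleModule.nontrivial S V
  let B' : ℕ → Subring S := fun n => B (n + N₀)
  have hmono' : Monotone B' := fun a b hab => hmono (Nat.add_le_add_right hab _)
  have hcov' : ∀ s : S, ∃ n, s ∈ B' n := by
    intro s
    obtain ⟨n, hn⟩ := hcov s
    exact ⟨n, hmono (Nat.le_add_right _ _) hn⟩
  have hirr' : ∀ n, IsSimpleModule (B' n) V := by
    intro n
    rw [isSimpleModule_iff_toSpanSingleton_surjective]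
    refine ⟨hnt, fun x hx y => ?_⟩
    obtain ⟨t, ht, hty⟩ := hN₀ (n + N₀) (Nat.le_add_left _ _) x y hx
    exact ⟨⟨t, ht⟩, hty⟩
  have hprim1 : ∀ n, ∃ p, Prim (B' n) p := by
    intro n
    obtain ⟨p, hp, -, -⟩ := hprim (n + N₀) 1 (B _).one_mem (mul_one 1) one_ne_zero
    exact ⟨p, hp⟩
  obtain ⟨J, hJ1, hJu, hJV⟩ := exists_uniform_ideal B' hmono' hcov' hirr'
    (fun b => exists_stage B' hmono' hirr' b (fun m =>
      exists_family B' hmono' hcov' (fun n => hreg _) hprim1 hsplit
        (fun s hs => faithful s hs) hirr' m b))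
  -- the module `S ⧸ J`
  have hM : Nontrivial (S ⧸ J) := by
    refine Submodule.Quotient.nontrivial_iff.2 ?_
    intro htop
    exact hJ1 (by rw [htop]; trivial)
  obtain ⟨N, _, _, j, hN, hj, hess⟩ := exists_indInj_uniform (R := S) (S ⧸ J) (by
    intro x y hx hy
    obtain ⟨a, rfl⟩ := Submodule.Quotient.mk_surjective _ x
    obtain ⟨b, rfl⟩ := Submodule.Quotient.mk_surjective _ y
    have ha : a ∉ J := fun h => hx ((Submodule.Quotient.mk_eq_zero _).2 h)
    have hb : b ∉ J := fun h => hy ((Submodule.Quotient.mk_eq_zero _).2 h)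
    obtain ⟨c, c', h1, h2⟩ := hJu a b ha hb
    refine ⟨c, c', ?_, ?_⟩
    · rw [← Submodule.Quotient.mk_smul, ← Submodule.Quotient.mk_smul, Submodule.Quotient.eq]
      exact h1
    · rw [← Submodule.Quotient.mk_smul, Ne, Submodule.Quotient.mk_eq_zero]
      exact h2)
  obtain ⟨N', _, _, j', hN', hj', -⟩ := exists_indInj (R := S) V
  obtain ⟨φ⟩ := hU N' N hN' hN
  obtain ⟨v, hv⟩ := exists_ne (0 : V)
  have hv0 : φ (j' v) ≠ 0 := by
    intro h
    apply hv
    apply hj'
    rw [map_zero]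
    exact (map_eq_zero_iff φ φ.injective).1 h
  obtain ⟨r, ⟨m, hm⟩, hr0⟩ := hess.2 (φ (j' v)) trivial hv0
  obtain ⟨a, rfl⟩ := Submodule.Quotient.mk_surjective _ m
  have ha : a ∉ J := by
    intro h
    apply hr0
    rw [← hm, (Submodule.Quotient.mk_eq_zero _).2 h, map_zero]
  have hκ : r • v ≠ 0 := by
    intro h
    apply hr0
    rw [← map_smul, ← map_smul, h, map_zero, map_zero]
  refine hJV a ha (r • v) hκ fun t => ?_
  have h1 : t * a ∈ J ↔ j (Submodule.Quotient.mk (t * a)) = 0 := by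
    rw [map_eq_zero_iff j hj, Submodule.Quotient.mk_eq_zero]
  have h2 : j (Submodule.Quotient.mk (t * a)) = φ (j' (t • r • v)) := by
    have e1 : (Submodule.Quotient.mk (t * a) : S ⧸ J) = t • Submodule.Quotient.mk a := rfl
    rw [e1, map_smul, hm, map_smul, map_smul, map_smul, map_smul]
  rw [h1, h2, map_eq_zero_iff φ φ.injective, map_eq_zero_iff j' hj']

end TwoPoints

end Pool.Agent.H79.CU
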