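import Mathlib
import Pool.Agent.H79.CU.TwoPoints
import Pool.Agent.H79.CU.Chain

set_option autoImplicit false

universe u v

namespace Pool.Agent.H79.CU

open Module Pool.Agent.H36.KG

section Split

variable {S : Type u} [Ring S]

/-- in a simple regular ring that is not semisimple every idempotent splits -/
theorem split_of_not_semisimple [IsSimpleRing S] (hreg : ∀ a : S, ∃ x : S, a * x * a = a)
    (hns : ¬ IsSemisimpleRing S) (f : S) (hff : f * f = f) (hf0 : f ≠ 0) :
    ∃ g : S, g * g = g ∧ g ≠ 0 ∧ g ≠ f ∧ f * g = g ∧ g * f = g := by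
  by_contra hcon
  push Not at hcon
  apply hns
  refine ((IsSimpleRing.tfae (R := S)).out 2 0).1 (show ∃ I : Ideal S, IsAtom I from
    ⟨Ideal.span {f}, ?_⟩)
  refine ⟨?_, ?_⟩
  · intro h
    exact hf0 (Ideal.span_singleton_eq_bot.1 h)
  · intro J hJ
    by_contra hJ0
    obtain ⟨y, hyJ, hy0⟩ := (Submodule.ne_bot_iff J).1 hJ0
    obtain ⟨t, ht⟩ := Ideal.mem_span_singleton'.1 (hJ.le hyJ)
    have hyf : y * f = y := by rw [← ht, mul_assoc, hff]
    obtain ⟨z, hz⟩ := hreg y
    obtain ⟨g, hg⟩ : ∃ g, g = f * z * y := ⟨_, rfl⟩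
    have hyg : y * g = y := by
      calc y * g = (y * f) * z * y := by rw [hg]; simp only [mul_assoc]
        _ = y := by rw [hyf, hz]
    have hgg : g * g = g := by
      calc g * g = f * z * (y * g) := by
            conv_lhs => rw [hg, mul_assoc]
            rw [← hg]
        _ = g := by rw [hyg, ← hg]
    have hg0 : g ≠ 0 := by
      intro h0
      apply hy0
      rw [← hyg, h0, mul_zero]
    have hfg : f * g = g := by rw [hg, ← mul_assoc, ← mul_assoc, hff]
    have hgf : g * f = g := by rw [hg, mul_assoc, hyf]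
    have hgJ : g ∈ J := by rw [hg]; exact J.mul_mem_left _ hyJ
    by_cases hgf' : g = f
    · apply hJ.not_ge
      rw [Ideal.span_singleton_le_iff_mem, ← hgf']
      exact hgJ
    · exact hcon g hgg hg0 hgf' hfg hgf

end Split

section Lift

/-- the property does not depend on the universe of the modules -/
theorem Semiartinian.lift {R : Type u} [Ring R] (h : Semiartinian.{u, u} R) :
    Semiartinian.{u, v} R := by
  intro M _ _ hM
  obtain ⟨x, hx⟩ := exists_ne (0 : M)
  let f : Rᵐᵒᵖ →ₗ[Rᵐᵒᵖ] M := LinearMap.toSpanSingleton Rᵐᵒᵖ M x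
  have hnt : Nontrivial (Rᵐᵒᵖ ⧸ LinearMap.ker f) := by
    refine Submodule.Quotient.nontrivial_iff.2 fun htop => hx ?_
    have : (1 : Rᵐᵒᵖ) ∈ LinearMap.ker f := by rw [htop]; trivial
    have h1 : f 1 = 0 := this
    have h2 : f 1 = x := by simp [f]
    rw [← h2, h1]
  obtain ⟨T, hT⟩ := h (Rᵐᵒᵖ ⧸ LinearMap.ker f) hnt
  let g : (Rᵐᵒᵖ ⧸ LinearMap.ker f) →ₗ[Rᵐᵒᵖ] M := (LinearMap.ker f).liftQ f le_rfl
  have hg : Function.Injective g := by
    rw [← LinearMap.ker_eq_bot]
    exact Submodule.ker_liftQ_eq_bot _ _ _ le_rfl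
  refine ⟨T.map g, ?_⟩
  exact IsSimpleModule.congr (T.equivMapOfInjective g hg).symm

end Lift

section Corner

variable {R : Type u} [Ring R] {e : R} (he : IsIdempotentElem e)

/-- the compression `e s e` -/
def cornerMk (s : R) : he.Corner := ⟨e * s * e, ⟨s, rfl⟩⟩

theorem cornerMk_val (s : R) : (cornerMk he s).1 = e * s * e := rfl

theorem cornerMk_zero : cornerMk he 0 = 0 := by
  apply Subtype.ext
  show e * 0 * e = 0
  rw [mul_zero, zero_mul]

theorem cornerMk_add (s t : R) : cornerMk he (s + t) = cornerMk he s + cornerMk he t := by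
  apply Subtype.ext
  show e * (s + t) * e = e * s * e + e * t * e
  rw [mul_add, add_mul]

theorem cornerMk_e : cornerMk he e = 1 := by
  have hee : e * e = e := he
  apply Subtype.ext
  show e * e * e = e
  rw [hee, hee]

theorem cornerMk_mul (s t : R) : cornerMk he (s * (e * t)) = cornerMk he s * cornerMk he t := by
  have hee : e * e = e := he
  apply Subtype.ext
  show e * (s * (e * t)) * e = e * s * e * (e * t * e)
  calc e * (s * (e * t)) * e = e * s * (e * e) * t * e := by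
        rw [hee]; simp only [mul_assoc]
    _ = e * s * e * (e * t * e) := by simp only [mul_assoc]

theorem corner_left (c : he.Corner) : e * c.1 = c.1 := by
  have hee : e * e = e := he
  obtain ⟨c, s, rfl⟩ := c
  show e * (e * s * e) = e * s * e
  rw [← mul_assoc, ← mul_assoc, hee]

theorem corner_right (c : he.Corner) : c.1 * e = c.1 := by
  have hee : e * e = e := he
  obtain ⟨c, s, rfl⟩ := c
  show e * s * e * e = e * s * e
  rw [mul_assoc, hee]

theorem cornerMk_self (c : he.Corner) : cornerMk he c.1 = c := by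
  apply Subtype.ext
  rw [cornerMk_val, corner_left, corner_right]

end Corner

section Final

/-- every nonzero right module over a right primitive factor ring `C / ann W` of `C` has a simple
submodule -/
def PrimitiveFactorsSemiartinian (C : Type u) [Ring C] : Prop :=
  ∀ (W : Type u) [AddCommGroup W] [Module Cᵐᵒᵖ W] [IsSimpleModule Cᵐᵒᵖ W]
    (X : Type u) [AddCommGroup X] [Module Cᵐᵒᵖ X] [Nontrivial X],
    (∀ c : Cᵐᵒᵖ, (∀ w : W, c • w = 0) → ∀ x : X, c • x = 0) →
      ∃ T : Submodule Cᵐᵒᵖ X, IsSimpleModule Cᵐᵒᵖ T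

/-- **Main theorem.** -/
theorem main (R : Type u) [Ring R] (A : ℕ → Subring R) (hmono : Monotone A)
    (hcov : ∀ r : R, ∃ n, r ∈ A n) (hreg : ∀ n, ∀ a ∈ A n, ∃ x ∈ A n, a * x * a = a)
    (hA : ∀ n, PrimitiveFactorsSemiartinian (A n))
    (hCB : ∃ α : Ordinal.{u + 1}, cb (Zg R) α = ∅) : Semiartinian.{u, v} R := by
  classical
  apply Semiartinian.lift
  by_contra hns
  have hregR : ∀ a : R, ∃ x : R, a * x * a = a := by
    intro a
    obtain ⟨n, hn⟩ := hcov a
    obtain ⟨x, -, hx⟩ := hreg n a hn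
    exact ⟨x, hx⟩
  obtain ⟨e, he, T, _, g, hg, hregT, hsimple, hnart, x₀, hx₀⟩ := reduction R hregR hCB hns
  obtain ⟨n₀, hn₀⟩ := hcov e
  have hee : e * e = e := he
  have hen : ∀ n, e ∈ A (n + n₀) := fun n => hmono (Nat.le_add_left n₀ n) hn₀
  have hcl := corner_left he
  have hcr := corner_right he
  let Ac : ℕ → Subring he.Corner := fun n =>
    { carrier := {c | c.1 ∈ A (n + n₀)}
      mul_mem' := fun {a b} ha hb => (A (n + n₀)).mul_mem ha hb
      one_mem' := hen n
      add_mem' := fun {a b} ha hb => (A (n + n₀)).add_mem ha hb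
      zero_mem' := (A (n + n₀)).zero_mem
      neg_mem' := fun {a} ha => (A (n + n₀)).neg_mem ha }
  have hAc : ∀ n (c : he.Corner), c ∈ Ac n ↔ c.1 ∈ A (n + n₀) := fun n c => Iff.rfl
  let B : ℕ → Subring Tᵐᵒᵖ := fun n => ((Ac n).map g).op
  have hB : ∀ n (x : Tᵐᵒᵖ), x ∈ B n ↔ ∃ c : he.Corner, c.1 ∈ A (n + n₀) ∧ g c = x.unop :=
    fun n x => Iff.rfl
  have hmonoB : Monotone B := by
    intro m n hmn x hx
    rw [hB] at hx ⊢
    obtain ⟨c, hc, hcx⟩ := hx
    exact ⟨c, hmono (Nat.add_le_add_right hmn _) hc, hcx⟩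
  have hcovB : ∀ x : Tᵐᵒᵖ, ∃ n, x ∈ B n := by
    intro x
    obtain ⟨c, hc⟩ := hg x.unop
    obtain ⟨n, hn⟩ := hcov c.1
    exact ⟨n, (hB n x).2 ⟨c, hmono (Nat.le_add_right n n₀) hn, hc⟩⟩
  have hregB : ∀ n, ∀ a ∈ B n, ∃ x ∈ B n, a * x * a = a := by
    intro n a ha
    obtain ⟨c, hc, hca⟩ := (hB n a).1 ha
    obtain ⟨x, hx, hcx⟩ := hreg _ c.1 hc
    let c' : he.Corner := cornerMk he x
    have h1 : c * c' * c = c := by
      apply Subtype.ext
      show c.1 * (e * x * e) * c.1 = c.1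
      calc c.1 * (e * x * e) * c.1 = (c.1 * e) * x * (e * c.1) := by simp only [mul_assoc]
        _ = c.1 := by rw [hcl, hcr, hcx]
    refine ⟨MulOpposite.op (g c'), (hB n _).2 ⟨c', ?_, rfl⟩, ?_⟩
    · exact (A _).mul_mem ((A _).mul_mem (hen n) hx) (hen n)
    · apply MulOpposite.unop_injective
      show a.unop * (g c' * a.unop) = a.unop
      rw [← hca, ← map_mul, ← map_mul, ← mul_assoc, h1]
  have hregS : ∀ a : Tᵐᵒᵖ, ∃ x : Tᵐᵒᵖ, a * x * a = a := by
    intro a
    obtain ⟨n, hn⟩ := hcovB a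
    obtain ⟨x, -, hx⟩ := hregB n a hn
    exact ⟨x, hx⟩
  have hU : ∀ (N N' : Type u) [AddCommGroup N] [AddCommGroup N'] [Module Tᵐᵒᵖ N]
      [Module Tᵐᵒᵖ N'], IndInj Tᵐᵒᵖ N → IndInj Tᵐᵒᵖ N' → Nonempty (N ≃ₗ[Tᵐᵒᵖ] N') := by
    intro N N' _ _ _ _ hN hN'
    have h1 : (Zg.mk (⟨N, hN⟩ : Point T)) = Zg.mk ⟨N', hN'⟩ := (hx₀ _).trans (hx₀ _).symm
    exact Quotient.exact h1
  have hU' : ∀ (V W : Type u) [AddCommGroup V] [AddCommGroup W] [Module Tᵐᵒᵖ V] [Module Tᵐᵒᵖ W]
      [IsSimpleModule Tᵐᵒᵖ V] [IsSimpleModule Tᵐᵒᵖ W], Nonempty (V ≃ₗ[Tᵐᵒᵖ] W) := by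
    intro V W _ _ _ _ _ _
    obtain ⟨N, _, _, j, hN, hj, -⟩ := exists_indInj (R := Tᵐᵒᵖ) V
    obtain ⟨N', _, _, j', hN', hj', hess'⟩ := exists_indInj (R := Tᵐᵒᵖ) W
    obtain ⟨φ⟩ := hU N N' hN hN'
    exact simple_iso_of_hull_iso j hj j' hj' hess' φ
  have hsplit := split_of_not_semisimple (S := Tᵐᵒᵖ) hregS (by
    intro h2
    have h3 : IsSemisimpleRing T := isSemisimpleRing_mulOpposite_iff.1 h2
    exact hnart inferInstance)
  -- the corner-quotient maps
  let D : ℕ → Type u := fun n => (A (n + n₀))ᵐᵒᵖ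
  let eD : ∀ n, D n := fun n => MulOpposite.op ⟨e, hen n⟩
  let π : ∀ n, D n →+ Tᵐᵒᵖ := fun n =>
    { toFun := fun d => MulOpposite.op (g (cornerMk he d.unop.1))
      map_zero' := by
        show MulOpposite.op (g (cornerMk he 0)) = 0
        rw [cornerMk_zero, map_zero, MulOpposite.op_zero]
      map_add' := by
        intro a b
        show MulOpposite.op (g (cornerMk he (a.unop.1 + b.unop.1))) =
          MulOpposite.op (g (cornerMk he a.unop.1)) + MulOpposite.op (g (cornerMk he b.unop.1))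
        rw [cornerMk_add, map_add, MulOpposite.op_add] }
  have hπ : ∀ n, ∀ a b, π n (a * eD n * b) = π n a * π n b := by
    intro n a b
    show MulOpposite.op (g (cornerMk he (b.unop.1 * (e * a.unop.1)))) =
      MulOpposite.op (g (cornerMk he a.unop.1)) * MulOpposite.op (g (cornerMk he b.unop.1))
    rw [cornerMk_mul, map_mul, MulOpposite.op_mul]
  have hπ1 : ∀ n, π n (eD n) = 1 := by
    intro n
    show MulOpposite.op (g (cornerMk he e)) = 1
    rw [cornerMk_e, map_one, MulOpposite.op_one]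
  have hrange : ∀ n x, x ∈ B n ↔ ∃ d, π n d = x := by
    intro n x
    rw [hB]
    constructor
    · rintro ⟨c, hc, hcx⟩
      refine ⟨MulOpposite.op ⟨c.1, hc⟩, ?_⟩
      show MulOpposite.op (g (cornerMk he c.1)) = x
      rw [cornerMk_self, hcx, MulOpposite.op_unop]
    · rintro ⟨d, rfl⟩
      exact ⟨cornerMk he d.unop.1,
        (A _).mul_mem ((A _).mul_mem (hen n) d.unop.2) (hen n), rfl⟩
  have hprim := hprim_of_pfs (S := Tᵐᵒᵖ) B hmonoB hcovB hregB hU' D (fun n => hA (n + n₀)) eD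
    (fun n => by
      apply MulOpposite.unop_injective
      apply Subtype.ext
      exact hee) π hπ hπ1 hrange
  exact two_points (S := Tᵐᵒᵖ) B hmonoB hcovB hregB hprim hsplit hU

end Final

end Pool.Agent.H79.CU
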